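import Pool.Agent.R884.TreeCap.Num

set_option autoImplicit false

/-! Layers of an integer valued function on a laminar family. -/

namespace Pool.Agent.R884.TreeCap

open Real Finset

variable {E X : Type} (S : E → Set X) (n : E → ℕ)

open Classical in
/-- upper value -/
noncomputable def NU (C : Finset E) (e : E) : ℕ := ∑ f ∈ C with S e ⊆ S f, n f
open Classical in
/-- lower value -/
noncomputable def NL (C : Finset E) (e : E) : ℕ := ∑ f ∈ C with S e ⊂ S f, n f

/-- the layer `j` meets the edge `e` -/
def Lay (C : Finset E) (e : E) (j : ℕ) : Prop := NL S n C e ≤ j ∧ j < NU S n C e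

variable {S n}

theorem exists_least (C : Finset E) (hC : C.Nonempty)
    (htot : ∀ e ∈ C, ∀ f ∈ C, S e ⊆ S f ∨ S f ⊆ S e) : ∃ e ∈ C, ∀ f ∈ C, S e ⊆ S f := by
  classical
  induction C using Finset.induction_on with
  | empty => exact absurd hC (by simp)
  | insert a C ha ih =>
    rcases C.eq_empty_or_nonempty with h | h
    · subst h
      exact ⟨a, by simp, by simp⟩
    · obtain ⟨e, he, hmin⟩ := ih h fun e he f hf =>
        htot e (mem_insert_of_mem he) f (mem_insert_of_mem hf)
      rcases htot e (mem_insert_of_mem he) a (mem_insert_self a C) with h1 | h1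
      · refine ⟨e, mem_insert_of_mem he, fun f hf => ?_⟩
        rcases mem_insert.1 hf with rfl | hf
        · exact h1
        · exact hmin f hf
      · refine ⟨a, mem_insert_self a C, fun f hf => ?_⟩
        rcases mem_insert.1 hf with rfl | hf
        · exact subset_rfl
        · exact h1.trans (hmin f hf)

open Classical in
theorem chain (hinj : Function.Injective S) (j : ℕ) (C : Finset E)
    (htot : ∀ e ∈ C, ∀ f ∈ C, S e ⊆ S f ∨ S f ⊆ S e) :
    ∑ e ∈ C, (if Lay S n C e j then 1 else 0) = if j < ∑ e ∈ C, n e then 1 else 0 := by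
  induction C using Finset.strongInduction with
  | H C ih =>
    rcases C.eq_empty_or_nonempty with h | h
    · subst h; simp
    · obtain ⟨e0, he0, hmin⟩ := exists_least C h htot
      obtain ⟨C', hC'⟩ : ∃ C', C' = C.erase e0 := ⟨_, rfl⟩
      have hsub : C' ⊂ C := by rw [hC']; exact erase_ssubset he0
      have h1 := ih C' hsub fun e he f hf => htot e (hsub.1 he) f (hsub.1 hf)
      have hins : C = insert e0 C' := by rw [hC', insert_erase he0]
      have hnot : e0 ∉ C' := by rw [hC']; simp
      have hstrict : ∀ e ∈ C', ¬ S e ⊆ S e0 := by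
        intro e he hle
        have : e = e0 := hinj (hle.antisymm (hmin e (hsub.1 he)))
        rw [this] at he
        exact hnot he
      have hU : ∀ e ∈ C', NU S n C e = NU S n C' e := by
        intro e he
        unfold NU
        rw [hins, filter_insert, if_neg (hstrict e he)]
      have hL : ∀ e ∈ C', NL S n C e = NL S n C' e := by
        intro e he
        unfold NL
        rw [hins, filter_insert, if_neg fun hh => hstrict e he hh.1]
      have hU0 : NU S n C e0 = n e0 + ∑ e ∈ C', n e := by
        unfold NU
        rw [filter_true_of_mem (fun f hf => hmin f hf), hins, sum_insert hnot]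
      have hL0 : NL S n C e0 = ∑ e ∈ C', n e := by
        unfold NL
        rw [hins, filter_insert, if_neg (fun hh => hh.2 subset_rfl), filter_true_of_mem]
        intro f hf
        exact ⟨hmin f (hsub.1 hf), hstrict f hf⟩
      have h2 : ∑ e ∈ C', (if Lay S n C e j then 1 else 0) =
          ∑ e ∈ C', (if Lay S n C' e j then 1 else 0) := by
        refine sum_congr rfl fun e he => ?_
        unfold Lay
        rw [hU e he, hL e he]
      have h3 : ∑ e ∈ C, (if Lay S n C e j then 1 else 0) =
          (if Lay S n C e0 j then 1 else 0) + ∑ e ∈ C', (if Lay S n C e j then 1 else 0) := by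
        conv_lhs => rw [hins, sum_insert hnot, ← hins]
      have h4 : ∑ e ∈ C, n e = n e0 + ∑ e ∈ C', n e := by
        conv_lhs => rw [hins, sum_insert hnot]
      rw [h3, h2, h1, h4]
      unfold Lay
      rw [hU0, hL0]
      split_ifs <;> omega

open Classical in
/-- the integer valued function -/
noncomputable def NN (S : E → Set X) (n : E → ℕ) (F : Finset E) (x : X) : ℕ :=
  ∑ e ∈ F, if x ∈ S e then n e else 0

open Classical in
theorem layers (hinj : Function.Injective S)
    (hlam : ∀ e f x, x ∈ S e → x ∈ S f → S e ⊆ S f ∨ S f ⊆ S e) (F : Finset E) (x : X) (j : ℕ) :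
    ∑ e ∈ F, (if x ∈ S e ∧ Lay S n F e j then 1 else 0) = if j < NN S n F x then 1 else 0 := by
  have h1 := chain (n := n) hinj j (F.filter fun e => x ∈ S e) fun e he f hf =>
    hlam e f x (mem_filter.1 he).2 (mem_filter.1 hf).2
  have h2 : ∑ e ∈ F with x ∈ S e, n e = NN S n F x := by
    unfold NN
    rw [sum_filter]
  rw [h2] at h1
  rw [← h1, sum_filter]
  refine sum_congr rfl fun e _ => ?_
  by_cases hx : x ∈ S e
  · rw [if_pos hx]
    have hU : NU S n F e = NU S n (F.filter fun e => x ∈ S e) e := by
      unfold NU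
      refine sum_congr ?_ fun _ _ => rfl
      ext f
      simp only [mem_filter]
      exact ⟨fun h => ⟨⟨h.1, h.2 hx⟩, h.2⟩, fun h => ⟨h.1.1, h.2⟩⟩
    have hL : NL S n F e = NL S n (F.filter fun e => x ∈ S e) e := by
      unfold NL
      refine sum_congr ?_ fun _ _ => rfl
      ext f
      simp only [mem_filter]
      exact ⟨fun h => ⟨⟨h.1, h.2.1 hx⟩, h.2⟩, fun h => ⟨h.1.1, h.2⟩⟩
    refine if_congr ?_ rfl rfl
    unfold Lay
    rw [hU, hL]
    simp only [hx, true_and]
  · rw [if_neg (fun h => hx h.1), if_neg hx]

/-- an edge meets as many layers as it should -/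
theorem NU_eq (hinj : Function.Injective S) (F : Finset E) (e : E) (he : e ∈ F) :
    NU S n F e = NL S n F e + n e := by
  classical
  unfold NU NL
  have h : F.filter (fun f => S e ⊆ S f) = insert e (F.filter fun f => S e ⊂ S f) := by
    ext f
    simp only [mem_filter, mem_insert]
    constructor
    · rintro ⟨hf, hsub⟩
      by_cases hef : f = e
      · exact Or.inl hef
      · refine Or.inr ⟨hf, hsub, fun h => hef (hinj (h.antisymm hsub))⟩
    · rintro (rfl | ⟨hf, hsub⟩)
      · exact ⟨he, subset_rfl⟩
      · exact ⟨hf, hsub.1⟩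
  rw [h, sum_insert, add_comm]
  intro hmem
  exact (mem_filter.1 hmem).2.2 subset_rfl

theorem NU_le (F : Finset E) (e : E) : NU S n F e ≤ ∑ f ∈ F, n f := by
  classical
  unfold NU
  exact sum_le_sum_of_subset (filter_subset _ _)

theorem NN_le (F : Finset E) (x : X) : NN S n F x ≤ ∑ f ∈ F, n f := by
  classical
  unfold NN
  refine sum_le_sum fun e _ => ?_
  split_ifs
  · exact le_rfl
  · exact Nat.zero_le _

open Classical in
theorem sum_lay {m : ℕ} (hinj : Function.Injective S) (F : Finset E) (hm : ∑ f ∈ F, n f ≤ m)
    (e : E) (he : e ∈ F) : ∑ j ∈ range m, (if Lay S n F e j then (1 : ℝ) else 0) = n e := by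
  have h1 : (range m).filter (fun j => Lay S n F e j) = Ico (NL S n F e) (NU S n F e) := by
    ext j
    simp only [mem_filter, mem_range, mem_Ico, Lay]
    have := (NU_le (S := S) (n := n) F e).trans hm
    constructor
    · rintro ⟨_, h⟩; exact h
    · rintro ⟨h, h'⟩; exact ⟨by omega, h, h'⟩
  rw [← sum_filter, h1, NU_eq hinj F e he]
  simp

end Pool.Agent.R884.TreeCap
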