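import Pool.Agent.R884.TreeCap.Chain

set_option autoImplicit false

/-! The inequality for integer valued functions. -/

namespace Pool.Agent.R884.TreeCap

open Real Finset MeasureTheory
open scoped ENNReal NNReal

variable {E X : Type} {S : E → Set X} {n : E → ℕ}

open Classical in
/-- the energy density of a layer -/
noncomputable def ff (S : E → Set X) (n : E → ℕ) (F : Finset E) (w : E → ℝ) (p : ℝ) (j : ℕ) : ℝ :=
  ∑ e ∈ F, if Lay S n F e j then w e * (n e : ℝ) ^ (p - 1) else 0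

theorem ff_nonneg (F : Finset E) (w : E → ℝ) (hw : ∀ e, 0 ≤ w e) (p : ℝ) (j : ℕ) :
    0 ≤ ff S n F w p j := by
  classical
  unfold ff
  refine sum_nonneg fun e _ => ?_
  split_ifs
  · have := hw e; positivity
  · exact le_rfl

theorem sum_ff {m : ℕ} (hinj : Function.Injective S) (F : Finset E) (hm : ∑ f ∈ F, n f ≤ m)
    (w : E → ℝ) {p : ℝ} (hp : 1 < p) :
    ∑ j ∈ range m, ff S n F w p j = ∑ e ∈ F, w e * (n e : ℝ) ^ p := by
  classical
  unfold ff
  rw [sum_comm]
  refine sum_congr rfl fun e he => ?_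
  have h1 : ∀ j, (if Lay S n F e j then w e * (n e : ℝ) ^ (p - 1) else 0) =
      w e * (n e : ℝ) ^ (p - 1) * (if Lay S n F e j then (1 : ℝ) else 0) := by
    intro j; split_ifs <;> simp
  simp_rw [h1]
  rw [← mul_sum, sum_lay hinj F hm e he, mul_assoc]
  congr 1
  rcases Nat.eq_zero_or_pos (n e) with h | h
  · rw [h, Nat.cast_zero, mul_zero, zero_rpow (by linarith)]
  · have hpos : (0 : ℝ) < n e := by exact_mod_cast h
    rw [← rpow_add_one hpos.ne']
    ring_nf

open Classical in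
/-- the test function for the level `j` -/
noncomputable def th (S : E → Set X) (n : E → ℕ) (F : Finset E) (y : ℕ → ℝ) (j : ℕ) (e : E) : ℝ :=
  (∑ i ∈ range (j + 1), if Lay S n F e i then y i else 0) / ∑ i ∈ range (j + 1), y i

theorem th_nonneg (F : Finset E) {y : ℕ → ℝ} (hy : ∀ i, 0 < y i) (j : ℕ) (e : E) :
    0 ≤ th S n F y j e := by
  classical
  unfold th
  refine div_nonneg (sum_nonneg fun i _ => ?_) (sum_nonneg fun i _ => (hy i).le)
  split_ifs
  · exact (hy i).le
  · exact le_rfl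

theorem psi_pos {y : ℕ → ℝ} (hy : ∀ i, 0 < y i) (j : ℕ) : 0 < ∑ i ∈ range (j + 1), y i :=
  sum_pos (fun i _ => hy i) ⟨0, by simp⟩

open Classical in
theorem th_adm (hinj : Function.Injective S)
    (hlam : ∀ e f x, x ∈ S e → x ∈ S f → S e ⊆ S f ∨ S f ⊆ S e) (F : Finset E)
    {y : ℕ → ℝ} (hy : ∀ i, 0 < y i) (j : ℕ) (x : X) (hx : j < NN S n F x) :
    ∑ e ∈ F, (if x ∈ S e then th S n F y j e else 0) = 1 := by
  have hpsi := psi_pos hy j
  have h1 : ∀ e, (if x ∈ S e then th S n F y j e else 0) =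
      ∑ i ∈ range (j + 1), (y i / ∑ i ∈ range (j + 1), y i) *
        (if x ∈ S e ∧ Lay S n F e i then (1 : ℝ) else 0) := by
    intro e
    unfold th
    by_cases hxe : x ∈ S e
    · rw [if_pos hxe, sum_div]
      refine sum_congr rfl fun i _ => ?_
      by_cases hl : Lay S n F e i
      · rw [if_pos hl, if_pos ⟨hxe, hl⟩, mul_one]
      · rw [if_neg hl, if_neg (fun h => hl h.2), mul_zero, zero_div]
    · rw [if_neg hxe]
      symm
      refine sum_eq_zero fun i _ => ?_
      rw [if_neg (fun h => hxe h.1), mul_zero]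
  simp_rw [h1]
  rw [sum_comm]
  simp_rw [← mul_sum]
  have h2 : ∀ i ∈ range (j + 1), ∑ e ∈ F, (if x ∈ S e ∧ Lay S n F e i then (1 : ℝ) else 0) = 1 := by
    intro i hi
    have h3 := layers (n := n) hinj hlam F x i
    rw [if_pos (by rw [mem_range] at hi; omega)] at h3
    have h4 : ((∑ e ∈ F, (if x ∈ S e ∧ Lay S n F e i then 1 else 0) : ℕ) : ℝ) = 1 := by
      rw [h3]; norm_num
    push_cast at h4
    exact h4
  rw [sum_congr rfl fun i hi => by rw [h2 i hi, mul_one]]
  rw [← sum_div, div_self hpsi.ne']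

theorem th_energy (hinj : Function.Injective S) (F : Finset E) (w : E → ℝ) (hw : ∀ e, 0 ≤ w e)
    {p : ℝ} (hp : 1 < p) {y : ℕ → ℝ} (hy : ∀ i, 0 < y i)
    (hyf : ∀ i, ff S n F w p i ≤ y i ^ (1 - p)) (j : ℕ) :
    ∑ e ∈ F, w e * th S n F y j e ^ p ≤ (∑ i ∈ range (j + 1), y i) ^ (1 - p) := by
  classical
  have hpsi := psi_pos hy j
  obtain ⟨P, hP⟩ : ∃ P, P = ∑ i ∈ range (j + 1), y i := ⟨_, rfl⟩
  rw [← hP] at hpsi ⊢
  have h1 : ∀ e ∈ F, w e * th S n F y j e ^ p ≤
      P ^ (-p) * ∑ i ∈ range (j + 1), y i ^ p *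
        (if Lay S n F e i then w e * (n e : ℝ) ^ (p - 1) else 0) := by
    intro e he
    have hnum : (∑ i ∈ range (j + 1), if Lay S n F e i then y i else 0) ^ p ≤
        (n e : ℝ) ^ (p - 1) * ∑ i ∈ range (j + 1), if Lay S n F e i then y i ^ p else 0 := by
      rw [← sum_filter, ← sum_filter]
      have h2 := Real.rpow_sum_le_const_mul_sum_rpow_of_nonneg
        (s := (range (j + 1)).filter fun i => Lay S n F e i) (f := y) hp.le fun i _ => (hy i).le
      refine h2.trans (mul_le_mul_of_nonneg_right ?_ (sum_nonneg fun i _ => rpow_nonneg (hy i).le _))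
      refine rpow_le_rpow (Nat.cast_nonneg _) ?_ (by linarith)
      have h3 : ((range (j + 1)).filter fun i => Lay S n F e i) ⊆ Ico (NL S n F e) (NU S n F e) := by
        intro i hi
        rw [mem_filter] at hi
        rw [mem_Ico]
        exact hi.2
      have h4 := card_le_card h3
      rw [Nat.card_Ico, NU_eq hinj F e he, Nat.add_sub_cancel_left] at h4
      exact_mod_cast h4
    have h5 : th S n F y j e ^ p = P ^ (-p) *
        (∑ i ∈ range (j + 1), if Lay S n F e i then y i else 0) ^ p := by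
      unfold th
      rw [← hP, div_rpow _ hpsi.le, rpow_neg hpsi.le]
      · field_simp
      · refine sum_nonneg fun i _ => ?_
        split_ifs
        · exact (hy i).le
        · exact le_rfl
    rw [h5]
    have h6 : ∑ i ∈ range (j + 1), y i ^ p *
        (if Lay S n F e i then w e * (n e : ℝ) ^ (p - 1) else 0) =
        w e * ((n e : ℝ) ^ (p - 1) * ∑ i ∈ range (j + 1), if Lay S n F e i then y i ^ p else 0) := by
      rw [mul_sum, mul_sum]
      refine sum_congr rfl fun i _ => ?_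
      split_ifs
      · ring
      · simp
    rw [h6]
    calc w e * (P ^ (-p) * (∑ i ∈ range (j + 1), if Lay S n F e i then y i else 0) ^ p)
        = P ^ (-p) * (w e * (∑ i ∈ range (j + 1), if Lay S n F e i then y i else 0) ^ p) := by ring
      _ ≤ _ := mul_le_mul_of_nonneg_left (mul_le_mul_of_nonneg_left hnum (hw e))
        (rpow_nonneg hpsi.le _)
  refine (sum_le_sum h1).trans ?_
  rw [← mul_sum, sum_comm]
  simp_rw [← mul_sum]
  have h7 : ∑ i ∈ range (j + 1), y i ^ p *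
      (∑ e ∈ F, if Lay S n F e i then w e * (n e : ℝ) ^ (p - 1) else 0) ≤ P := by
    rw [hP]
    refine sum_le_sum fun i _ => ?_
    have h8 := mul_le_mul_of_nonneg_left (hyf i) (rpow_nonneg (hy i).le p)
    refine h8.trans ?_
    rw [← rpow_add (hy i), show p + (1 - p) = 1 by ring, rpow_one]
  have h9 := mul_le_mul_of_nonneg_left h7 (rpow_nonneg hpsi.le (-p))
  refine h9.trans ?_
  rw [← rpow_add_one hpsi.ne']
  exact le_of_eq (by ring_nf)

theorem NN_meas [MeasurableSpace X] (hS : ∀ e, MeasurableSet (S e)) (F : Finset E) :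
    Measurable (NN S n F) := by
  classical
  unfold NN
  refine Finset.measurable_sum _ fun e _ => ?_
  exact Measurable.ite (hS e) measurable_const measurable_const

theorem NN_pow {m : ℕ} (F : Finset E) (hm : ∑ f ∈ F, n f ≤ m) {p : ℝ} (hp : 1 < p) (x : X) :
    ((NN S n F x : ℕ) : ℝ≥0∞) ^ p = ∑ j ∈ range m,
      ({x | j < NN S n F x} : Set X).indicator
        (fun _ => ENNReal.ofReal (((j : ℝ) + 1) ^ p - (j : ℝ) ^ p)) x := by
  classical
  have hp0 : 0 < p := by linarith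
  have hNm : NN S n F x ≤ m := (NN_le F x).trans hm
  obtain ⟨N, hN⟩ : ∃ N, N = NN S n F x := ⟨_, rfl⟩
  have h1 : ∀ j, ({x | j < NN S n F x} : Set X).indicator
      (fun _ => ENNReal.ofReal (((j : ℝ) + 1) ^ p - (j : ℝ) ^ p)) x =
      if j < N then ENNReal.ofReal (((j : ℝ) + 1) ^ p - (j : ℝ) ^ p) else 0 := by
    intro j
    rw [Set.indicator_apply]
    simp only [Set.mem_ofPred_eq, hN]
  simp_rw [h1]
  rw [← hN] at hNm ⊢
  rw [← sum_filter]
  have h2 : (range m).filter (fun j => j < N) = range N := by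
    ext j
    simp only [mem_filter, mem_range]
    omega
  rw [h2, ← ENNReal.ofReal_sum_of_nonneg]
  · have h3 : ∑ j ∈ range N, (((j : ℝ) + 1) ^ p - (j : ℝ) ^ p) = (N : ℝ) ^ p := by
      have := Finset.sum_range_sub (fun j : ℕ => (j : ℝ) ^ p) N
      push_cast at this
      rw [this, zero_rpow hp0.ne', sub_zero]
    rw [h3, ← ENNReal.ofReal_rpow_of_nonneg (Nat.cast_nonneg _) hp0.le, ENNReal.ofReal_natCast]
  · intro j _
    have : (j : ℝ) ^ p ≤ ((j : ℝ) + 1) ^ p :=
      rpow_le_rpow (Nat.cast_nonneg _) (by linarith) hp0.le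
    linarith

open Classical in
/-- The hypothesis: the isocapacitary inequality with the constant `κ`, for finitely supported test
functions. -/
def Iso [MeasurableSpace X] (μ : Measure X) (S : E → Set X) (p : ℝ) (w : E → ℝ≥0) (κ : ℝ≥0∞) :
    Prop :=
  ∀ (A F : Finset E) (θ : E → ℝ≥0), (∀ e ∈ A, ∀ f ∈ A, e ≠ f → Disjoint (S e) (S f)) →
    (∀ e ∈ A, ∀ x ∈ S e, 1 ≤ ∑ f ∈ F, if x ∈ S f then (θ f : ℝ≥0∞) else 0) →
    ∑ e ∈ A, μ (S e) ≤ κ * ∑ f ∈ F, (θ f : ℝ≥0∞) ^ p * w f

theorem level [MeasurableSpace X] (μ : Measure X) (hS : ∀ e, MeasurableSet (S e))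
    (hinj : Function.Injective S)
    (hlam : ∀ e f x, x ∈ S e → x ∈ S f → S e ⊆ S f ∨ S f ⊆ S e) (F : Finset E) (w : E → ℝ≥0)
    {p : ℝ} (hp : 1 < p) {κ : ℝ≥0∞} (hκ : Iso μ S p w κ) {y : ℕ → ℝ} (hy : ∀ i, 0 < y i)
    (hyf : ∀ i, ff S n F (fun e => w e) p i ≤ y i ^ (1 - p)) (j : ℕ) :
    μ {x | j < NN S n F x} ≤ κ * ENNReal.ofReal ((∑ i ∈ range (j + 1), y i) ^ (1 - p)) := by
  classical
  have hp0 : 0 < p := by linarith
  obtain ⟨A, hA⟩ : ∃ A, A = F.filter fun e => Lay S n F e j := ⟨_, rfl⟩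
  have hlay := fun x => layers (n := n) hinj hlam F x j
  have hdisj : ∀ e ∈ A, ∀ f ∈ A, e ≠ f → Disjoint (S e) (S f) := by
    intro e he f hf hef
    rw [hA, mem_filter] at he hf
    rw [Set.disjoint_left]
    intro x hxe hxf
    have h1 := hlay x
    rw [← card_filter] at h1
    have h2 : (F.filter fun e => x ∈ S e ∧ Lay S n F e j).card ≤ 1 := by
      rw [h1]; split_ifs <;> simp
    exact hef (card_le_one.1 h2 e (mem_filter.2 ⟨he.1, hxe, he.2⟩) f
      (mem_filter.2 ⟨hf.1, hxf, hf.2⟩))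
  have hunion : {x | j < NN S n F x} = ⋃ e ∈ A, S e := by
    ext x
    simp only [Set.mem_ofPred_eq, Set.mem_iUnion, exists_prop]
    constructor
    · intro hx
      have h1 := hlay x
      rw [if_pos hx] at h1
      by_contra hcon
      push Not at hcon
      rw [sum_eq_zero] at h1
      · exact absurd h1 (by norm_num)
      · intro e he
        rw [if_neg]
        rintro ⟨h2, h3⟩
        exact hcon e (by rw [hA]; exact mem_filter.2 ⟨he, h3⟩) h2
    · rintro ⟨e, he, hxe⟩
      rw [hA, mem_filter] at he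
      by_contra hcon
      have h1 := hlay x
      rw [if_neg hcon, sum_eq_zero_iff] at h1
      have h2 := h1 e he.1
      rw [if_pos ⟨hxe, he.2⟩] at h2
      exact absurd h2 (by norm_num)
  have hμ : μ {x | j < NN S n F x} = ∑ e ∈ A, μ (S e) := by
    rw [hunion, measure_biUnion_finset (fun e he f hf hef => hdisj e he f hf hef) fun e _ => hS e]
  rw [hμ]
  have hθ := fun e => th_nonneg (S := S) (n := n) F hy j e
  have h1 := hκ A F (fun e => (th S n F y j e).toNNReal) hdisj (by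
    intro e he x hx
    have hxN : j < NN S n F x := by
      have : x ∈ {x | j < NN S n F x} := by
        rw [hunion]; exact Set.mem_biUnion he hx
      exact this
    have h2 := th_adm hinj hlam F hy j x hxN
    have h3 : ∀ f, (if x ∈ S f then (((th S n F y j f).toNNReal : ℝ≥0) : ℝ≥0∞) else 0) =
        ENNReal.ofReal (if x ∈ S f then th S n F y j f else 0) := by
      intro f
      split_ifs
      · rfl
      · simp
    simp_rw [h3]
    rw [← ENNReal.ofReal_sum_of_nonneg, h2, ENNReal.ofReal_one]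
    intro f _
    split_ifs
    · exact hθ f
    · exact le_rfl)
  refine h1.trans (mul_le_mul_right ?_ κ)
  have h4 := th_energy hinj F (fun e => (w e : ℝ)) (fun e => (w e).coe_nonneg) hp hy hyf j
  refine le_trans ?_ (ENNReal.ofReal_le_ofReal h4)
  rw [ENNReal.ofReal_sum_of_nonneg]
  · refine sum_le_sum fun e _ => ?_
    rw [ENNReal.ofReal_mul (w e).coe_nonneg, mul_comm,
      ← ENNReal.ofReal_rpow_of_nonneg (hθ e) hp0.le, ENNReal.ofReal_coe_nnreal]
    exact le_rfl
  · intro e _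
    have := hθ e
    have := (w e).coe_nonneg
    positivity

theorem int_ineq [MeasurableSpace X] (μ : Measure X) (hS : ∀ e, MeasurableSet (S e))
    (hinj : Function.Injective S)
    (hlam : ∀ e f x, x ∈ S e → x ∈ S f → S e ⊆ S f ∨ S f ⊆ S e) (F : Finset E) (w : E → ℝ≥0)
    {p : ℝ} (hp : 1 < p) {κ : ℝ≥0∞} (hκ' : κ ≠ ∞) (hκ : Iso μ S p w κ) :
    ∫⁻ x, ((NN S n F x : ℕ) : ℝ≥0∞) ^ p ∂μ ≤
      κ * (ENNReal.ofReal (KK p) * ∑ e ∈ F, (n e : ℝ≥0∞) ^ p * w e) := by
  classical
  have hp0 : 0 < p := by linarith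
  have hp1 : 0 < p - 1 := by linarith
  obtain ⟨m, hm⟩ : ∃ m, m = ∑ f ∈ F, n f := ⟨_, rfl⟩
  have hm' : ∑ f ∈ F, n f ≤ m := hm.ge
  have hmeas : ∀ j : ℕ, MeasurableSet {x | j < NN S n F x} := fun j =>
    measurableSet_lt measurable_const (NN_meas hS F)
  have hint : ∫⁻ x, ((NN S n F x : ℕ) : ℝ≥0∞) ^ p ∂μ = ∑ j ∈ range m,
      ENNReal.ofReal (((j : ℝ) + 1) ^ p - (j : ℝ) ^ p) * μ {x | j < NN S n F x} := by
    simp_rw [NN_pow F hm' hp]
    rw [lintegral_finsetSum _ fun j _ => measurable_const.indicator (hmeas j)]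
    refine sum_congr rfl fun j _ => ?_
    rw [lintegral_indicator_const (hmeas j)]
  rw [hint]
  have hD : ∀ j : ℕ, 0 ≤ ((j : ℝ) + 1) ^ p - (j : ℝ) ^ p := by
    intro j
    have : (j : ℝ) ^ p ≤ ((j : ℝ) + 1) ^ p :=
      rpow_le_rpow (Nat.cast_nonneg _) (by linarith) hp0.le
    linarith
  -- the inequality with ε
  have hε : ∀ ε : ℝ, 0 < ε → ∑ j ∈ range m,
      ENNReal.ofReal (((j : ℝ) + 1) ^ p - (j : ℝ) ^ p) * μ {x | j < NN S n F x} ≤
      κ * ENNReal.ofReal (KK p * (∑ e ∈ F, (w e : ℝ) * (n e : ℝ) ^ p + m * ε)) := by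
    intro ε hε
    have hf := fun i => ff_nonneg (S := S) (n := n) F (fun e => (w e : ℝ)) (fun e => (w e).coe_nonneg) p i
    obtain ⟨y, hy⟩ : ∃ y : ℕ → ℝ, ∀ i, y i =
        (ff S n F (fun e => (w e : ℝ)) p i + ε) ^ (-(1 / (p - 1))) := ⟨_, fun _ => rfl⟩
    have hy0 : ∀ i, 0 < y i := fun i => by
      rw [hy]; have := hf i; positivity
    have hyp : ∀ i, y i ^ (1 - p) = ff S n F (fun e => (w e : ℝ)) p i + ε := by
      intro i
      have := hf i
      rw [hy, ← rpow_mul (by positivity)]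
      have : -(1 / (p - 1)) * (1 - p) = 1 := by field_simp; ring
      rw [this, rpow_one]
    have h1 := level μ hS hinj hlam F w hp hκ hy0 (n := n) fun i => by rw [hyp]; linarith
    have h2 := bliss hp y hy0 m
    have h3 : ∑ j ∈ range m, y j ^ (1 - p) = ∑ e ∈ F, (w e : ℝ) * (n e : ℝ) ^ p + m * ε := by
      simp_rw [hyp]
      rw [sum_add_distrib, sum_ff hinj F hm' _ hp]
      simp
    rw [h3] at h2
    calc ∑ j ∈ range m,
        ENNReal.ofReal (((j : ℝ) + 1) ^ p - (j : ℝ) ^ p) * μ {x | j < NN S n F x}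
        ≤ ∑ j ∈ range m, ENNReal.ofReal (((j : ℝ) + 1) ^ p - (j : ℝ) ^ p) *
          (κ * ENNReal.ofReal ((∑ i ∈ range (j + 1), y i) ^ (1 - p))) :=
          sum_le_sum fun j _ => mul_le_mul_right (h1 j) _
      _ = κ * ENNReal.ofReal (∑ j ∈ range m, (((j : ℝ) + 1) ^ p - (j : ℝ) ^ p) *
          (∑ i ∈ range (j + 1), y i) ^ (1 - p)) := by
          rw [ENNReal.ofReal_sum_of_nonneg, mul_sum]
          · refine sum_congr rfl fun j _ => ?_
            rw [ENNReal.ofReal_mul (hD j)]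
            ring
          · intro j _
            exact mul_nonneg (hD j) (rpow_nonneg (psi_pos hy0 j).le _)
      _ ≤ _ := mul_le_mul_right (ENNReal.ofReal_le_ofReal h2) κ
  -- let ε tend to 0
  have hlim : Filter.Tendsto (fun ε : ℝ => κ * ENNReal.ofReal
      (KK p * (∑ e ∈ F, (w e : ℝ) * (n e : ℝ) ^ p + m * ε))) (nhdsWithin 0 (Set.Ioi 0))
      (nhds (κ * ENNReal.ofReal (KK p * (∑ e ∈ F, (w e : ℝ) * (n e : ℝ) ^ p + m * 0)))) := by
    refine (ENNReal.Tendsto.const_mul ?_ (Or.inr hκ')).mono_left nhdsWithin_le_nhds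
    refine ENNReal.tendsto_ofReal ?_
    refine Filter.Tendsto.const_mul _ (Filter.Tendsto.const_add _ (Filter.Tendsto.const_mul _ ?_))
    exact Filter.tendsto_id
  have h4 := ge_of_tendsto hlim (by
    filter_upwards [self_mem_nhdsWithin] with ε hε'
    exact hε ε hε')
  refine h4.trans (le_of_eq ?_)
  rw [mul_zero, add_zero, ENNReal.ofReal_mul (KK_pos hp).le, ENNReal.ofReal_sum_of_nonneg]
  · congr 2
    refine sum_congr rfl fun e _ => ?_
    rw [ENNReal.ofReal_mul (w e).coe_nonneg, mul_comm,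
      ← ENNReal.ofReal_rpow_of_nonneg (Nat.cast_nonneg _) hp0.le, ENNReal.ofReal_natCast,
      ENNReal.ofReal_coe_nnreal]
  · intro e _
    have := (w e).coe_nonneg
    positivity

end Pool.Agent.R884.TreeCap
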