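import Mathlib

set_option autoImplicit false

/-!
# The Hardy inequality and capacities on locally finite trees
-/

noncomputable section

namespace Pool.Agent.R884.TreeCap

open MeasureTheory
open scoped ENNReal NNReal

/-- A locally finite tree (a connected graph without cycles, with countably many vertices, all of
finite degree) with a root `o` and a pre-root `o*` which is adjacent to `o` only. -/
structure RTree where
  /-- the vertices -/
  V : Type
  countable : Countable V
  /-- the graph -/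
  G : SimpleGraph V
  isTree : G.IsTree
  locallyFinite : ∀ v, (G.neighborSet v).Finite
  /-- the root -/
  root : V
  /-- the pre-root -/
  preRoot : V
  adj_preRoot : ∀ v, G.Adj preRoot v ↔ v = root

variable (T : RTree)

/-- The edges. -/
def Edge : Type := ↥T.G.edgeSet

/-- The infinite geodesics starting at the pre-root. -/
def Ray : Type := {ξ : ℕ → T.V //
  ξ 0 = T.preRoot ∧ (∀ n, T.G.Adj (ξ n) (ξ (n + 1))) ∧ Function.Injective ξ}

/-- The space `T ∪ ∂T`: the vertices and the infinite geodesics starting at `o*` (a finite maximal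
geodesic is identified with the leaf where it ends). -/
def Cl : Type := T.V ⊕ Ray T

/-- The set of edges of the geodesic from `o*` to `x`. -/
def geo : Cl T → Set (Edge T)
  | Sum.inl x => {e | ∃ w : T.G.Walk T.preRoot x, w.IsPath ∧ e.1 ∈ w.edges}
  | Sum.inr ξ => {e | ∃ n, e.1 = s(ξ.1 n, ξ.1 (n + 1))}

/-- The successor set of an edge. -/
def S (e : Edge T) : Set (Cl T) := {x | e ∈ geo T x}

/-- The topology generated by the successor sets and the singletons of vertices. -/
instance : TopologicalSpace (Cl T) := TopologicalSpace.generateFrom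
  ({A | ∃ e, A = S T e} ∪ {A | ∃ x : T.V, A = {(Sum.inl x : Cl T)}})

/-- The Borel sets. -/
instance : MeasurableSpace (Cl T) := borel (Cl T)

open Classical in
/-- The Hardy operator: the sum of `φ` over the geodesic from `o*` to `x`. -/
def hardyOp (φ : Edge T → ℝ≥0) (x : Cl T) : ℝ≥0∞ :=
  ∑' e : Edge T, if e ∈ geo T x then (φ e : ℝ≥0∞) else 0

/-- `∑ φ(α)^p π(α)`. -/
def energy (p : ℝ) (π φ : Edge T → ℝ≥0) : ℝ≥0∞ := ∑' e : Edge T, (φ e : ℝ≥0∞) ^ p * (π e : ℝ≥0∞)

/-- `[μ]`: the smallest constant in the Hardy inequality. -/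
def hardyConst (p : ℝ) (π : Edge T → ℝ≥0) (μ : Measure (Cl T)) : ℝ≥0∞ :=
  sInf {C | ∀ φ : Edge T → ℝ≥0, ∫⁻ x, hardyOp T φ x ^ p ∂μ ≤ C * energy T p π φ}

/-- The capacity of a set. -/
def cap (p : ℝ) (π : Edge T → ℝ≥0) (A : Set (Cl T)) : ℝ≥0∞ :=
  sInf {c | ∃ φ : Edge T → ℝ≥0, (∀ x ∈ A, 1 ≤ hardyOp T φ x) ∧ c = energy T p π φ}

/-- `[[μ]]_c`: the isocapacitary constant, the supremum over the finite nonempty families of edges
with pairwise disjoint successor sets. In `[0, ∞]` one has `a / 0 = ∞` for `a > 0`, and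
`0 / 0 = 0`. -/
def isoConst (p : ℝ) (π : Edge T → ℝ≥0) (μ : Measure (Cl T)) : ℝ≥0∞ :=
  sSup {c | ∃ A : Finset (Edge T), A.Nonempty ∧
    (∀ e ∈ A, ∀ f ∈ A, e ≠ f → Disjoint (S T e) (S T f)) ∧
    c = (∑ e ∈ A, μ (S T e)) / cap T p π (⋃ e ∈ A, S T e)}

/-- The constants `K` such that `[μ] ≤ K [[μ]]_c` for all trees, all edge weights and all
measures. -/
def admissible (p : ℝ) : Set ℝ≥0∞ :=
  {K | ∀ (T : RTree) (π : Edge T → ℝ≥0) (μ : Measure (Cl T)),
    hardyConst T p π μ ≤ K * isoConst T p π μ}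

end Pool.Agent.R884.TreeCap
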