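import Pool.Agent.R884.TreeCap.Core

set_option autoImplicit false

/-! The inequality for general functions. -/

namespace Pool.Agent.R884.TreeCap

open Real Finset MeasureTheory Filter Topology
open scoped ENNReal NNReal

variable {E X : Type} {S : E → Set X}

open Classical in
theorem fin_ineq [MeasurableSpace X] (μ : Measure X) (hS : ∀ e, MeasurableSet (S e))
    (hinj : Function.Injective S)
    (hlam : ∀ e f x, x ∈ S e → x ∈ S f → S e ⊆ S f ∨ S f ⊆ S e) (F : Finset E) (w φ : E → ℝ≥0)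
    {p : ℝ} (hp : 1 < p) {κ : ℝ≥0∞} (hκ' : κ ≠ ∞) (hκ : Iso μ S p w κ) :
    ∫⁻ x, (∑ e ∈ F, if x ∈ S e then (φ e : ℝ≥0∞) else 0) ^ p ∂μ ≤
      κ * (ENNReal.ofReal (KK p) * ∑ e ∈ F, (φ e : ℝ≥0∞) ^ p * w e) := by
  have hp0 : 0 < p := by linarith
  obtain ⟨n, hn⟩ : ∃ n : ℕ → E → ℕ, ∀ k e, n k e = ⌊(φ e : ℝ) * ((k : ℝ) + 1)⌋₊ :=
    ⟨_, fun _ _ => rfl⟩
  -- the quotients
  have hq : ∀ k e, ((n k e : ℕ) : ℝ≥0∞) * ((k : ℝ≥0∞) + 1)⁻¹ =
      ENNReal.ofReal (⌊(φ e : ℝ) * ((k : ℝ) + 1)⌋₊ / ((k : ℝ) + 1)) := by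
    intro k e
    rw [hn, ENNReal.ofReal_div_of_pos (by positivity), ENNReal.ofReal_natCast,
      ENNReal.ofReal_add (by positivity) zero_le_one, ENNReal.ofReal_natCast, ENNReal.ofReal_one]
    rfl
  have hle : ∀ k e, ((n k e : ℕ) : ℝ≥0∞) * ((k : ℝ≥0∞) + 1)⁻¹ ≤ φ e := by
    intro k e
    rw [hq]
    have h1 : (⌊(φ e : ℝ) * ((k : ℝ) + 1)⌋₊ : ℝ) / ((k : ℝ) + 1) ≤ φ e := by
      rw [div_le_iff₀ (by positivity)]
      exact Nat.floor_le (by positivity)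
    refine (ENNReal.ofReal_le_ofReal h1).trans ?_
    rw [ENNReal.ofReal_coe_nnreal]
  have hlim : ∀ e, Tendsto (fun k : ℕ => ((n k e : ℕ) : ℝ≥0∞) * ((k : ℝ≥0∞) + 1)⁻¹) atTop
      (𝓝 (φ e : ℝ≥0∞)) := by
    intro e
    simp_rw [hq]
    have h1 := tendsto_nat_floor_mul_div_atTop (R := ℝ) (a := (φ e : ℝ)) (φ e).coe_nonneg
    have h2 : Tendsto (fun k : ℕ => (k : ℝ) + 1) atTop atTop :=
      tendsto_atTop_add_const_right _ _ tendsto_natCast_atTop_atTop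
    have h3 := ENNReal.tendsto_ofReal (h1.comp h2)
    rw [ENNReal.ofReal_coe_nnreal] at h3
    exact h3
  obtain ⟨f, hf⟩ : ∃ f : ℕ → X → ℝ≥0∞, ∀ k x, f k x =
      (((NN S (n k) F x : ℕ) : ℝ≥0∞) * ((k : ℝ≥0∞) + 1)⁻¹) ^ p := ⟨_, fun _ _ => rfl⟩
  have hfm : ∀ k, Measurable (f k) := by
    intro k
    have : f k = fun x => (((NN S (n k) F x : ℕ) : ℝ≥0∞) * ((k : ℝ≥0∞) + 1)⁻¹) ^ p :=
      funext (hf k)
    rw [this]
    refine Measurable.pow_const ?_ p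
    refine Measurable.mul_const ?_ _
    exact (measurable_from_top (f := fun n : ℕ => (n : ℝ≥0∞))).comp (NN_meas hS F)
  have hsum : ∀ k x, ((NN S (n k) F x : ℕ) : ℝ≥0∞) * ((k : ℝ≥0∞) + 1)⁻¹ =
      ∑ e ∈ F, if x ∈ S e then ((n k e : ℕ) : ℝ≥0∞) * ((k : ℝ≥0∞) + 1)⁻¹ else 0 := by
    intro k x
    unfold NN
    push_cast
    rw [sum_mul]
    refine sum_congr rfl fun e _ => ?_
    split_ifs <;> simp
  have hflim : ∀ x, Tendsto (fun k => f k x) atTop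
      (𝓝 ((∑ e ∈ F, if x ∈ S e then (φ e : ℝ≥0∞) else 0) ^ p)) := by
    intro x
    simp_rw [hf, hsum]
    refine (ENNReal.continuous_rpow_const.tendsto _).comp ?_
    refine tendsto_finsetSum _ fun e _ => ?_
    split_ifs
    · exact hlim e
    · exact tendsto_const_nhds
  have hfint : ∀ k, ∫⁻ x, f k x ∂μ ≤
      κ * (ENNReal.ofReal (KK p) * ∑ e ∈ F, (φ e : ℝ≥0∞) ^ p * w e) := by
    intro k
    have h1 := int_ineq (n := n k) μ hS hinj hlam F w hp hκ' hκ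
    obtain ⟨c, hc⟩ : ∃ c : ℝ≥0∞, c = ((k : ℝ≥0∞) + 1)⁻¹ := ⟨_, rfl⟩
    have h2 : ∫⁻ x, f k x ∂μ = (∫⁻ x, ((NN S (n k) F x : ℕ) : ℝ≥0∞) ^ p ∂μ) * c ^ p := by
      rw [← lintegral_mul_const]
      · refine lintegral_congr fun x => ?_
        rw [hf, ENNReal.mul_rpow_of_nonneg _ _ hp0.le, hc]
      · refine Measurable.pow_const ?_ p
        exact (measurable_from_top (f := fun n : ℕ => (n : ℝ≥0∞))).comp (NN_meas hS F)
    rw [h2]
    calc (∫⁻ x, ((NN S (n k) F x : ℕ) : ℝ≥0∞) ^ p ∂μ) * c ^ p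
        ≤ κ * (ENNReal.ofReal (KK p) * ∑ e ∈ F, (n k e : ℝ≥0∞) ^ p * w e) * c ^ p :=
          mul_le_mul_left h1 _
      _ = κ * (ENNReal.ofReal (KK p) * ∑ e ∈ F, ((n k e : ℝ≥0∞) * c) ^ p * w e) := by
          have h3 : (∑ e ∈ F, (n k e : ℝ≥0∞) ^ p * w e) * c ^ p =
              ∑ e ∈ F, ((n k e : ℝ≥0∞) * c) ^ p * w e := by
            rw [sum_mul]
            refine sum_congr rfl fun e _ => ?_
            rw [ENNReal.mul_rpow_of_nonneg _ _ hp0.le]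
            ring
          rw [← h3]
          ring
      _ ≤ _ := by
          refine mul_le_mul_right (mul_le_mul_right (sum_le_sum fun e _ => ?_) _) _
          refine mul_le_mul_left (ENNReal.rpow_le_rpow ?_ hp0.le) _
          rw [hc]
          exact hle k e
  calc ∫⁻ x, (∑ e ∈ F, if x ∈ S e then (φ e : ℝ≥0∞) else 0) ^ p ∂μ
      = ∫⁻ x, liminf (fun k => f k x) atTop ∂μ := by
        refine lintegral_congr fun x => ?_
        rw [(hflim x).liminf_eq]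
    _ ≤ liminf (fun k => ∫⁻ x, f k x ∂μ) atTop := lintegral_liminf_le hfm
    _ ≤ _ := by
        refine liminf_le_of_le (by isBoundedDefault) fun b hb => ?_
        obtain ⟨k, hk⟩ := hb.exists
        exact hk.trans (hfint k)

open Classical in
theorem general [Countable E] [MeasurableSpace X] (μ : Measure X) (hS : ∀ e, MeasurableSet (S e))
    (hinj : Function.Injective S)
    (hlam : ∀ e f x, x ∈ S e → x ∈ S f → S e ⊆ S f ∨ S f ⊆ S e) (w φ : E → ℝ≥0)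
    {p : ℝ} (hp : 1 < p) {κ : ℝ≥0∞} (hκ' : κ ≠ ∞) (hκ : Iso μ S p w κ) :
    ∫⁻ x, (∑' e, if x ∈ S e then (φ e : ℝ≥0∞) else 0) ^ p ∂μ ≤
      κ * (ENNReal.ofReal (KK p) * ∑' e, (φ e : ℝ≥0∞) ^ p * w e) := by
  have hp0 : 0 < p := by linarith
  have h1 : ∀ x, (∑' e, if x ∈ S e then (φ e : ℝ≥0∞) else 0) ^ p =
      ⨆ F : Finset E, (∑ e ∈ F, if x ∈ S e then (φ e : ℝ≥0∞) else 0) ^ p := by
    intro x
    rw [ENNReal.tsum_eq_iSup_sum]
    exact (ENNReal.orderIsoRpow p hp0).map_iSup _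
  simp_rw [h1]
  rw [lintegral_iSup_directed]
  · refine iSup_le fun F => (fin_ineq μ hS hinj hlam F w φ hp hκ' hκ).trans ?_
    exact mul_le_mul_right (mul_le_mul_right (ENNReal.sum_le_tsum F) _) _
  · intro F
    refine (Measurable.pow_const ?_ p).aemeasurable
    refine Finset.measurable_sum _ fun e _ => ?_
    exact Measurable.ite (hS e) measurable_const measurable_const
  · intro F G
    refine ⟨F ∪ G, fun x => ?_, fun x => ?_⟩
    · exact ENNReal.rpow_le_rpow (sum_le_sum_of_subset subset_union_left) hp0.le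
    · exact ENNReal.rpow_le_rpow (sum_le_sum_of_subset subset_union_right) hp0.le

end Pool.Agent.R884.TreeCap
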