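import Pool.Agent.R884.TreeCap.Tree

set_option autoImplicit false

/-! The lower bound: an infinite ray with geometric weights. -/

noncomputable section

namespace Pool.Agent.R884.TreeCap

open MeasureTheory SimpleGraph Filter Topology Real Finset
open scoped ENNReal NNReal

/-! ### the limit -/

theorem lower_limit {p k : ℝ} (hp : 1 < p)
    (hk : ∀ q : ℝ, 1 < q → 1 - q ^ (-(p - 1)) ≤
      k * ((q ^ ((p - 1) / p) - 1) ^ p * (q - 1) ^ (-(p - 1)))) : KK p ≤ k := by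
  have hp0 : 0 < p := by linarith
  have hp1 : 0 < p - 1 := by linarith
  obtain ⟨s, hs⟩ : ∃ s, s = (p - 1) / p := ⟨_, rfl⟩
  have hs0 : 0 < s := by rw [hs]; positivity
  rw [← hs] at hk
  have hA : Tendsto (fun q : ℝ => (1 - q ^ (-(p - 1))) / (q - 1)) (𝓝[>] 1) (𝓝 (p - 1)) := by
    have h1 : HasDerivAt (fun q : ℝ => q ^ (-(p - 1))) (-(p - 1) * 1 ^ (-(p - 1) - 1)) 1 :=
      Real.hasDerivAt_rpow_const (Or.inl one_ne_zero)
    rw [one_rpow, mul_one] at h1
    have h2 := (hasDerivAt_iff_tendsto_slope.1 h1.neg).mono_left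
      (nhdsWithin_mono 1 (fun x (hx : 1 < x) => hx.ne') : 𝓝[>] (1 : ℝ) ≤ 𝓝[≠] 1)
    rw [neg_neg] at h2
    refine h2.congr fun q => ?_
    rw [slope_def_field]
    simp only [Pi.neg_apply, one_rpow]
    ring_nf
  have hB : Tendsto (fun q : ℝ => (q ^ s - 1) / (q - 1)) (𝓝[>] 1) (𝓝 s) := by
    have h1 : HasDerivAt (fun q : ℝ => q ^ s) (s * 1 ^ (s - 1)) 1 :=
      Real.hasDerivAt_rpow_const (Or.inl one_ne_zero)
    rw [one_rpow, mul_one] at h1
    have h2 := (hasDerivAt_iff_tendsto_slope.1 h1).mono_left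
      (nhdsWithin_mono 1 (fun x (hx : 1 < x) => hx.ne') : 𝓝[>] (1 : ℝ) ≤ 𝓝[≠] 1)
    refine h2.congr fun q => ?_
    rw [slope_def_field]
    simp only [one_rpow]
  have hC : Tendsto (fun q : ℝ => k * ((q ^ s - 1) / (q - 1)) ^ p) (𝓝[>] 1) (𝓝 (k * s ^ p)) :=
    (hB.rpow_const (Or.inr hp0.le)).const_mul k
  have h := le_of_tendsto_of_tendsto hA hC (by
    filter_upwards [self_mem_nhdsWithin] with q hq
    have hq : 1 < q := hq
    have hq1 : 0 < q - 1 := by linarith
    have h1 : 0 ≤ q ^ s - 1 := by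
      have := one_le_rpow hq.le hs0.le
      linarith
    have h2 := div_le_div_of_nonneg_right (hk q hq) hq1.le
    refine h2.trans (le_of_eq ?_)
    rw [div_rpow h1 hq1.le]
    have h3 : (q - 1) ^ (-(p - 1)) = (q - 1) / (q - 1) ^ p := by
      rw [show -(p - 1) = 1 - p by ring, rpow_sub hq1, rpow_one]
    rw [h3]
    field_simp)
  have hsp : 0 < s ^ p := rpow_pos_of_pos hs0 _
  have h4 : KK p = (p - 1) / s ^ p := by
    unfold KK
    rw [hs, div_rpow hp1.le hp0.le]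
    have h5 : (p - 1) ^ p = (p - 1) ^ (p - 1) * (p - 1) := by
      rw [← rpow_add_one hp1.ne']; ring_nf
    rw [h5]
    have : 0 < (p - 1) ^ (p - 1) := rpow_pos_of_pos hp1 _
    have : 0 < p ^ p := rpow_pos_of_pos hp0 _
    field_simp
  rw [h4, div_le_iff₀ hsp]
  exact h

/-! ### the ray -/

/-- the graph on `ℕ` in which `n` and `n + 1` are adjacent -/
def GN : SimpleGraph ℕ where
  Adj i j := i + 1 = j ∨ j + 1 = i
  symm := ⟨fun i j h => h.symm⟩
  loopless := ⟨fun i h => by rcases h with h | h <;> omega⟩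

theorem GN_adj {i j : ℕ} : GN.Adj i j ↔ i + 1 = j ∨ j + 1 = i := Iff.rfl

theorem GN_reach (n : ℕ) : GN.Reachable 0 n := by
  induction n with
  | zero => exact Reachable.refl _
  | succ n ih => exact ih.trans (Adj.reachable (GN_adj.2 (Or.inl rfl)))

theorem GN_cut {k u v : ℕ} (w : (GN.deleteEdges {s(k, k + 1)}).Walk u v) (hu : u ≤ k) : v ≤ k := by
  induction w with
  | nil => exact hu
  | cons h _ ih =>
    apply ih
    rw [deleteEdges_adj] at h
    obtain ⟨h1, h2⟩ := h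
    rcases GN_adj.1 h1 with h3 | h3
    · by_contra hcon
      apply h2
      rw [Set.mem_singleton_iff, Sym2.eq_iff]
      left
      omega
    · omega

theorem GN_tree : GN.IsTree := by
  refine ⟨⟨fun u v => (GN_reach u).symm.trans (GN_reach v)⟩, ?_⟩
  rw [isAcyclic_iff_forall_adj_isBridge]
  have main : ∀ k, GN.IsBridge s(k, k + 1) := by
    intro k
    rw [isBridge_iff]
    rintro ⟨w⟩
    have := GN_cut w le_rfl
    omega
  intro v w h
  rcases GN_adj.1 h with h | h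
  · subst h; exact main v
  · subst h; rw [Sym2.eq_swap]; exact main w

/-- the ray, as a rooted tree -/
def T0 : RTree where
  V := ℕ
  countable := inferInstance
  G := GN
  isTree := GN_tree
  locallyFinite v := (Set.finite_Iic (v + 1)).subset fun w hw => by
    rw [mem_neighborSet, GN_adj] at hw
    rw [Set.mem_Iic]; omega
  root := 1
  preRoot := 0
  adj_preRoot v := by
    rw [GN_adj]
    constructor
    · rintro (h | h) <;> omega
    · intro h; left; omega

/-- the edges -/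
def ed (k : ℕ) : Edge T0 := ⟨s(k, k + 1), Or.inl rfl⟩

theorem ed_bij : Function.Bijective ed := by
  constructor
  · intro k j h
    have h1 : s(k, k + 1) = s(j, j + 1) := congrArg Subtype.val h
    rw [Sym2.eq_iff] at h1
    omega
  · intro e
    obtain ⟨⟨a, b⟩, hab⟩ : ∃ q : ℕ × ℕ, e.1 = s(q.1, q.2) := by
      obtain ⟨q, hq⟩ := Quot.exists_rep e.1
      exact ⟨q, hq.symm⟩
    have hadj : GN.Adj a b := by
      have := e.2
      rw [hab] at this
      exact this
    rcases GN_adj.1 hadj with h | h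
    · refine ⟨a, Subtype.ext ?_⟩
      rw [hab]
      change s(a, a + 1) = s(a, b)
      rw [h]
    · refine ⟨b, Subtype.ext ?_⟩
      rw [hab]
      change s(b, b + 1) = s(a, b)
      rw [h, Sym2.eq_swap]

/-- the edges are enumerated by the natural numbers -/
def edE : ℕ ≃ Edge T0 := Equiv.ofBijective ed ed_bij

/-- the point `n` -/
def pt (n : ℕ) : Cl T0 := Sum.inl n

/-- the infinite geodesic -/
def xi : Ray T0 := ⟨fun n => n, rfl, fun _ => Or.inl rfl, fun _ _ h => h⟩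

theorem mem_geo_pt {k m : ℕ} : ed k ∈ geo T0 (pt m) ↔ k < m := by
  unfold pt
  rw [mem_geo_inl]
  have h := ray_edges xi m (ed k).1
  have h1 : ((ed k).1 ∈ (PP T0 (xi.1 m)).edges) ↔ ((ed k).1 ∈ (PP T0 (m : ℕ)).edges) := Iff.rfl
  rw [← h1, h]
  constructor
  · rintro ⟨j, hj, hj'⟩
    have h2 : s(k, k + 1) = s(j, j + 1) := hj'
    rw [Sym2.eq_iff] at h2
    omega
  · intro hk
    exact ⟨k, hk, rfl⟩

theorem mem_S_pt {k m : ℕ} : pt m ∈ S T0 (ed k) ↔ k < m := mem_geo_pt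

theorem hardyOp_pt (φ : Edge T0 → ℝ≥0) (m : ℕ) :
    hardyOp T0 φ (pt m) = ∑ i ∈ range m, (φ (ed i) : ℝ≥0∞) := by
  classical
  unfold hardyOp
  rw [← edE.tsum_eq]
  have h1 : ∀ i, (if edE i ∈ geo T0 (pt m) then (φ (edE i) : ℝ≥0∞) else 0) =
      if i < m then (φ (ed i) : ℝ≥0∞) else 0 := by
    intro i
    exact if_congr mem_geo_pt rfl rfl
  simp_rw [h1]
  rw [tsum_eq_sum (s := range m)]
  · refine sum_congr rfl fun i hi => ?_
    rw [if_pos (mem_range.1 hi)]
  · intro i hi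
    rw [if_neg (by rwa [mem_range] at hi)]

theorem energy_T0 (p : ℝ) (w φ : Edge T0 → ℝ≥0) :
    energy T0 p w φ = ∑' i, (φ (ed i) : ℝ≥0∞) ^ p * (w (ed i) : ℝ≥0∞) := by
  unfold energy
  rw [← edE.tsum_eq]
  rfl

/-- the measure: geometric masses at the vertices different from the pre-root -/
def mu (R : ℝ≥0∞) : Measure (Cl T0) :=
  Measure.sum fun j : ℕ => (R ^ j * (1 - R)) • Measure.dirac (pt (j + 1))

theorem lint_mu (R : ℝ≥0∞) {g : Cl T0 → ℝ≥0∞} (hg : Measurable g) :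
    ∫⁻ x, g x ∂(mu R) = ∑' j, R ^ j * (1 - R) * g (pt (j + 1)) := by
  unfold mu
  rw [lintegral_sum_measure]
  refine tsum_congr fun j => ?_
  rw [lintegral_smul_measure, lintegral_dirac' _ hg, smul_eq_mul]

theorem mu_S {R : ℝ≥0∞} (hR : R < 1) (k : ℕ) : mu R (S T0 (ed k)) = R ^ k := by
  classical
  have h1 : mu R (S T0 (ed k)) = ∫⁻ x, (S T0 (ed k)).indicator 1 x ∂(mu R) := by
    rw [lintegral_indicator_one (S_meas _)]
  rw [h1, lint_mu R (measurable_one.indicator (S_meas _))]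
  have h2 : ∀ j, R ^ j * (1 - R) * (S T0 (ed k)).indicator 1 (pt (j + 1)) =
      if k ≤ j then R ^ j * (1 - R) else 0 := by
    intro j
    by_cases h : k ≤ j
    · rw [if_pos h, Set.indicator_of_mem (mem_S_pt.2 (by omega)), Pi.one_apply, mul_one]
    · rw [if_neg h, Set.indicator_of_notMem (fun h' => h (by have := mem_S_pt.1 h'; omega)),
        mul_zero]
  simp_rw [h2]
  rw [← ENNReal.summable.sum_add_tsum_nat_add' (k := k)]
  have h3 : ∑ j ∈ range k, (if k ≤ j then R ^ j * (1 - R) else 0) = 0 := by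
    refine sum_eq_zero fun j hj => ?_
    rw [if_neg]
    rw [mem_range] at hj
    omega
  rw [h3, zero_add]
  have h4 : ∀ i, (if k ≤ i + k then R ^ (i + k) * (1 - R) else 0) = R ^ k * (1 - R) * R ^ i := by
    intro i
    rw [if_pos (by omega), pow_add]
    ring
  simp_rw [h4]
  rw [ENNReal.tsum_mul_left, ENNReal.tsum_geometric, mul_assoc, ENNReal.mul_inv_cancel, mul_one]
  · exact (tsub_pos_of_lt hR).ne'
  · exact (tsub_le_self.trans_lt ENNReal.one_lt_top).ne

/-! ### the weights -/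

/-- increments of a geometric sequence -/
def gs (c : ℝ) : ℕ → ℝ
  | 0 => 1
  | i + 1 => c ^ i * (c - 1)

theorem gs_pos {c : ℝ} (hc : 1 < c) (i : ℕ) : 0 < gs c i := by
  have h1 : 0 < c - 1 := by linarith
  have h0 : 0 < c := by linarith
  cases i with
  | zero => exact one_pos
  | succ i => exact mul_pos (pow_pos h0 i) h1

theorem gs_sum (c : ℝ) (k : ℕ) : ∑ i ∈ range (k + 1), gs c i = c ^ k := by
  induction k with
  | zero => simp [gs]
  | succ k ih =>
    rw [sum_range_succ, ih]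
    change c ^ k + c ^ k * (c - 1) = _
    ring

theorem gs_energy {p q : ℝ} (hp : 1 < p) (hq : 1 < q) (i : ℕ) :
    gs (q ^ ((p - 1) / p)) (i + 1) ^ p * gs q (i + 1) ^ (1 - p) =
      (q ^ ((p - 1) / p) - 1) ^ p * (q - 1) ^ (-(p - 1)) := by
  have hp0 : 0 < p := by linarith
  have hp1 : 0 < p - 1 := by linarith
  have hq0 : 0 < q := by linarith
  have hQ : 1 < q ^ ((p - 1) / p) := one_lt_rpow hq (by positivity)
  obtain ⟨Q, hQd⟩ : ∃ Q, Q = q ^ ((p - 1) / p) := ⟨_, rfl⟩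
  have hQp : Q ^ p = q ^ (p - 1) := by
    rw [hQd, ← rpow_mul hq0.le]
    congr 1
    field_simp
  rw [← hQd] at hQ ⊢
  have hQ0 : 0 < Q := by linarith
  change (Q ^ i * (Q - 1)) ^ p * (q ^ i * (q - 1)) ^ (1 - p) = _
  rw [mul_rpow (pow_nonneg hQ0.le i) (by linarith), mul_rpow (pow_nonneg hq0.le i) (by linarith)]
  have h1 : (Q ^ i) ^ p * (q ^ i) ^ (1 - p) = 1 := by
    have e1 : (Q ^ i) ^ p = (Q ^ p) ^ i := by
      rw [← rpow_natCast, ← rpow_natCast, ← rpow_mul hQ0.le, ← rpow_mul hQ0.le, mul_comm]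
    have e2 : (q ^ i) ^ (1 - p) = (q ^ (1 - p)) ^ i := by
      rw [← rpow_natCast, ← rpow_natCast, ← rpow_mul hq0.le, ← rpow_mul hq0.le, mul_comm]
    rw [e1, e2, ← mul_pow, hQp, ← rpow_add hq0]
    have : p - 1 + (1 - p) = 0 := by ring
    rw [this, rpow_zero, one_pow]
  calc (Q ^ i) ^ p * (Q - 1) ^ p * ((q ^ i) ^ (1 - p) * (q - 1) ^ (1 - p))
      = ((Q ^ i) ^ p * (q ^ i) ^ (1 - p)) * ((Q - 1) ^ p * (q - 1) ^ (1 - p)) := by ring
    _ = _ := by rw [h1, one_mul, show -(p - 1) = 1 - p by ring]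

/-- the edge weights -/
def wt (p q : ℝ) (e : Edge T0) : ℝ≥0 := (gs q (edE.symm e) ^ (1 - p)).toNNReal

theorem wt_ed (p q : ℝ) (i : ℕ) : (wt p q (ed i) : ℝ≥0∞) = ENNReal.ofReal (gs q i ^ (1 - p)) := by
  have : edE.symm (ed i) = i := edE.symm_apply_apply i
  unfold wt
  rw [this]
  rfl

/-- the ratio -/
def RR (p q : ℝ) : ℝ := q ^ (-(p - 1))

theorem RR_pow {p q : ℝ} (hq : 1 < q) (k : ℕ) : RR p q ^ k = (q ^ k) ^ (1 - p) := by
  have hq0 : 0 < q := by linarith
  unfold RR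
  rw [← rpow_natCast, ← rpow_natCast, ← rpow_mul hq0.le, ← rpow_mul hq0.le,
    show -(p - 1) * (k : ℝ) = k * (1 - p) by ring]

theorem RR_pos {p q : ℝ} (hq : 1 < q) : 0 < RR p q := rpow_pos_of_pos (by linarith) _

theorem RR_lt {p q : ℝ} (hp : 1 < p) (hq : 1 < q) : RR p q < 1 :=
  rpow_lt_one_of_one_lt_of_neg hq (by linarith)

theorem cap_real {p q : ℝ} (hp : 1 < p) (hq : 1 < q) (k : ℕ) (φ : ℕ → ℝ) (hφ : ∀ i, 0 ≤ φ i)
    (h1 : 1 ≤ ∑ i ∈ range (k + 1), φ i) :
    RR p q ^ k ≤ ∑ i ∈ range (k + 1), φ i ^ p * gs q i ^ (1 - p) := by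
  have hp0 : 0 < p := by linarith
  have hp1 : 0 < p - 1 := by linarith
  have hq0 : 0 < q := by linarith
  obtain ⟨b, hb⟩ : ∃ b, b = q ^ k := ⟨_, rfl⟩
  have hb0 : 0 < b := by rw [hb]; positivity
  rw [RR_pow hq, ← hb]
  have h2 : ∀ i ∈ range (k + 1), p * (1 / b) ^ (p - 1) * φ i - (p - 1) * (1 / b) ^ p * gs q i ≤
      φ i ^ p * gs q i ^ (1 - p) := fun i _ => radon hp (hφ i) (gs_pos hq i) (by positivity)
  refine le_trans ?_ (sum_le_sum h2)
  rw [sum_sub_distrib, ← mul_sum, ← mul_sum, gs_sum, ← hb]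
  have h3 : (1 / b) ^ p * b = (1 / b) ^ (p - 1) := by
    have : (1 / b) ^ p = (1 / b) ^ (p - 1) * (1 / b) := by
      rw [← rpow_add_one (by positivity)]; ring_nf
    rw [this]
    field_simp
  have h4 : b ^ (1 - p) = (1 / b) ^ (p - 1) := by
    rw [one_div, inv_rpow hb0.le, ← rpow_neg hb0.le]
    ring_nf
  have h5 : 0 < (1 / b) ^ (p - 1) := by positivity
  rw [h4, mul_assoc (p - 1), h3]
  nlinarith [mul_le_mul_of_nonneg_left h1 (mul_pos hp0 h5).le]

theorem cap_ge {p q : ℝ} (hp : 1 < p) (hq : 1 < q) (k : ℕ) :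
    ENNReal.ofReal (RR p q) ^ k ≤ cap T0 p (wt p q) (S T0 (ed k)) := by
  have hp0 : 0 < p := by linarith
  refine le_sInf ?_
  rintro c ⟨φ, hφ, rfl⟩
  have h1 := hφ (pt (k + 1)) (mem_S_pt.2 (by omega))
  rw [hardyOp_pt] at h1
  rw [energy_T0]
  refine le_trans ?_ (ENNReal.sum_le_tsum (range (k + 1)))
  have h2 : 1 ≤ ∑ i ∈ range (k + 1), (φ (ed i) : ℝ) := by
    rw [← ENNReal.ofNNReal_finsetSum, ← ENNReal.coe_one, ENNReal.coe_le_coe] at h1
    exact_mod_cast h1
  have h3 := cap_real hp hq k (fun i => (φ (ed i) : ℝ)) (fun i => (φ (ed i)).coe_nonneg) h2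
  have h4 : ∑ i ∈ range (k + 1), (φ (ed i) : ℝ≥0∞) ^ p * (wt p q (ed i) : ℝ≥0∞) =
      ENNReal.ofReal (∑ i ∈ range (k + 1), (φ (ed i) : ℝ) ^ p * gs q i ^ (1 - p)) := by
    rw [ENNReal.ofReal_sum_of_nonneg]
    · refine sum_congr rfl fun i _ => ?_
      rw [wt_ed, ENNReal.ofReal_mul (by positivity),
        ← ENNReal.ofReal_rpow_of_nonneg (φ (ed i)).coe_nonneg hp0.le, ENNReal.ofReal_coe_nnreal]
    · intro i _
      have := (gs_pos hq i).le
      positivity
  rw [h4, ← ENNReal.ofReal_pow (RR_pos hq).le]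
  exact ENNReal.ofReal_le_ofReal h3

theorem iso_le {p q : ℝ} (hp : 1 < p) (hq : 1 < q) :
    isoConst T0 p (wt p q) (mu (ENNReal.ofReal (RR p q))) ≤ 1 := by
  classical
  refine sSup_le ?_
  rintro c ⟨A, hA, hdisj, rfl⟩
  obtain ⟨e, he⟩ := hA
  obtain ⟨k, rfl⟩ := ed_bij.2 e
  have hAe : A = {ed k} := by
    rw [eq_singleton_iff_unique_mem]
    refine ⟨he, fun f hf => ?_⟩
    by_contra hne
    obtain ⟨j, rfl⟩ := ed_bij.2 f
    have h1 := hdisj _ hf _ he hne
    rw [Set.disjoint_left] at h1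
    exact h1 (a := pt (j + k + 1)) (mem_S_pt.2 (by omega)) (mem_S_pt.2 (by omega))
  rw [hAe, sum_singleton]
  have h2 : (⋃ e ∈ ({ed k} : Finset (Edge T0)), S T0 e) = S T0 (ed k) := by simp
  rw [h2, mu_S (by rw [ENNReal.ofReal_lt_one]; exact RR_lt hp hq)]
  refine ENNReal.div_le_of_le_mul ?_
  rw [one_mul]
  exact cap_ge hp hq k

/-- the test function -/
def ph (p q : ℝ) (N : ℕ) (e : Edge T0) : ℝ≥0 :=
  if edE.symm e < N + 1 then (gs (q ^ ((p - 1) / p)) (edE.symm e)).toNNReal else 0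

theorem ph_ed (p q : ℝ) (N i : ℕ) : ph p q N (ed i) =
    if i < N + 1 then (gs (q ^ ((p - 1) / p)) i).toNNReal else 0 := by
  have : edE.symm (ed i) = i := edE.symm_apply_apply i
  unfold ph
  rw [this]

theorem hardyOp_meas (φ : Edge T0 → ℝ≥0) : Measurable (hardyOp T0 φ) := by
  classical
  unfold hardyOp
  refine Measurable.ennreal_tsum fun e => ?_
  exact Measurable.ite (S_meas e) measurable_const measurable_const

theorem int_ge {p q : ℝ} (hp : 1 < p) (hq : 1 < q) (N : ℕ) :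
    ENNReal.ofReal (((N : ℝ) + 1) * (1 - RR p q)) ≤
      ∫⁻ x, hardyOp T0 (ph p q N) x ^ p ∂(mu (ENNReal.ofReal (RR p q))) := by
  have hp0 : 0 < p := by linarith
  have hp1 : 0 < p - 1 := by linarith
  have hq0 : 0 < q := by linarith
  have hQ : 1 < q ^ ((p - 1) / p) := one_lt_rpow hq (by positivity)
  rw [lint_mu _ ((hardyOp_meas _).pow_const p)]
  refine le_trans ?_ (ENNReal.sum_le_tsum (range (N + 1)))
  have h1 : ∀ j ∈ range (N + 1), ENNReal.ofReal (RR p q) ^ j * (1 - ENNReal.ofReal (RR p q)) *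
      hardyOp T0 (ph p q N) (pt (j + 1)) ^ p = ENNReal.ofReal (1 - RR p q) := by
    intro j hj
    rw [mem_range] at hj
    have h2 : hardyOp T0 (ph p q N) (pt (j + 1)) = ENNReal.ofReal ((q ^ ((p - 1) / p)) ^ j) := by
      rw [hardyOp_pt, ← gs_sum, ENNReal.ofReal_sum_of_nonneg fun i _ => (gs_pos hQ i).le]
      refine sum_congr rfl fun i hi => ?_
      rw [mem_range] at hi
      rw [ph_ed, if_pos (by omega)]
      rfl
    have h3 : ENNReal.ofReal (1 - RR p q) = 1 - ENNReal.ofReal (RR p q) := by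
      rw [ENNReal.ofReal_sub _ (RR_pos hq).le, ENNReal.ofReal_one]
    rw [h2, ENNReal.ofReal_rpow_of_nonneg (by positivity) hp0.le, ← h3,
      ← ENNReal.ofReal_pow (RR_pos hq).le, mul_right_comm,
      ← ENNReal.ofReal_mul (pow_nonneg (RR_pos hq).le j)]
    have h4 : RR p q ^ j * ((q ^ ((p - 1) / p)) ^ j) ^ p = 1 := by
      have e1 : ((q ^ ((p - 1) / p)) ^ j) ^ p = (q ^ j) ^ (p - 1) := by
        rw [← rpow_natCast, ← rpow_natCast, ← rpow_mul hq0.le, ← rpow_mul hq0.le,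
          ← rpow_mul hq0.le]
        congr 1
        field_simp
      rw [RR_pow hq, e1, ← rpow_add (by positivity)]
      have : 1 - p + (p - 1) = 0 := by ring
      rw [this, rpow_zero]
    rw [h4, ENNReal.ofReal_one, one_mul]
  rw [sum_congr rfl h1, sum_const, card_range, nsmul_eq_mul, ENNReal.ofReal_mul (by positivity),
    ENNReal.ofReal_add (by positivity) zero_le_one, ENNReal.ofReal_natCast, ENNReal.ofReal_one]
  push_cast
  exact le_rfl

theorem energy_eq {p q : ℝ} (hp : 1 < p) (hq : 1 < q) (N : ℕ) :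
    energy T0 p (wt p q) (ph p q N) = ENNReal.ofReal (1 + N *
      ((q ^ ((p - 1) / p) - 1) ^ p * (q - 1) ^ (-(p - 1)))) := by
  have hp0 : 0 < p := by linarith
  have hp1 : 0 < p - 1 := by linarith
  have hQ : 1 < q ^ ((p - 1) / p) := one_lt_rpow hq (by positivity)
  rw [energy_T0, tsum_eq_sum (s := range (N + 1))]
  · have h1 : ∀ i ∈ range (N + 1), (ph p q N (ed i) : ℝ≥0∞) ^ p * (wt p q (ed i) : ℝ≥0∞) =
        ENNReal.ofReal (gs (q ^ ((p - 1) / p)) i ^ p * gs q i ^ (1 - p)) := by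
      intro i hi
      rw [ph_ed, if_pos (mem_range.1 hi), wt_ed,
        ENNReal.ofReal_mul (rpow_nonneg (gs_pos hQ i).le _),
        ← ENNReal.ofReal_rpow_of_nonneg (gs_pos hQ i).le hp0.le]
      rfl
    rw [sum_congr rfl h1, ← ENNReal.ofReal_sum_of_nonneg]
    · congr 1
      rw [sum_range_succ']
      simp_rw [gs_energy hp hq]
      rw [sum_const, card_range, nsmul_eq_mul, add_comm]
      congr 1
      change (1 : ℝ) ^ p * (1 : ℝ) ^ (1 - p) = 1
      rw [one_rpow, one_rpow, one_mul]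
    · intro i _
      have := (gs_pos hQ i).le
      have := (gs_pos hq i).le
      positivity
  · intro i hi
    rw [mem_range] at hi
    rw [ph_ed, if_neg hi, ENNReal.coe_zero, ENNReal.zero_rpow_of_pos hp0, zero_mul]

theorem lower {p : ℝ} (hp : 1 < p) {K : ℝ≥0∞} (hK : K ∈ admissible p) :
    ENNReal.ofReal (KK p) ≤ K := by
  have hp1 : 0 < p - 1 := by linarith
  by_cases hKt : K = ∞
  · rw [hKt]; exact le_top
  obtain ⟨k, hk⟩ : ∃ k, k = K.toReal := ⟨_, rfl⟩
  have hKk : K = ENNReal.ofReal k := by rw [hk, ENNReal.ofReal_toReal hKt]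
  have hk0 : 0 ≤ k := by rw [hk]; exact ENNReal.toReal_nonneg
  rw [hKk]
  refine ENNReal.ofReal_le_ofReal (lower_limit hp fun q hq => ?_)
  obtain ⟨B, hB⟩ : ∃ B, B = (q ^ ((p - 1) / p) - 1) ^ p * (q - 1) ^ (-(p - 1)) := ⟨_, rfl⟩
  have hQ : 1 < q ^ ((p - 1) / p) := one_lt_rpow hq (by positivity)
  have hB0 : 0 ≤ B := by
    rw [hB]
    have : 0 ≤ q ^ ((p - 1) / p) - 1 := by linarith
    have : 0 ≤ q - 1 := by linarith
    positivity
  rw [← hB]
  have hN : ∀ N : ℕ, ((N : ℝ) + 1) * (1 - RR p q) ≤ k * (1 + N * B) := by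
    intro N
    have h1 := hK T0 (wt p q) (mu (ENNReal.ofReal (RR p q)))
    have h2 : hardyConst T0 p (wt p q) (mu (ENNReal.ofReal (RR p q))) ≤ K := by
      refine h1.trans ?_
      calc K * isoConst T0 p (wt p q) (mu (ENNReal.ofReal (RR p q))) ≤ K * 1 :=
            mul_le_mul_right (iso_le hp hq) K
        _ = K := mul_one K
    have hen := energy_eq hp hq N
    rw [← hB] at hen
    have hpos : 0 < 1 + (N : ℝ) * B := by positivity
    have hne0 : energy T0 p (wt p q) (ph p q N) ≠ 0 := by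
      rw [hen, Ne, ENNReal.ofReal_eq_zero, not_le]; exact hpos
    have hnet : energy T0 p (wt p q) (ph p q N) ≠ ∞ := by
      rw [hen]; exact ENNReal.ofReal_ne_top
    have h3 : (∫⁻ x, hardyOp T0 (ph p q N) x ^ p ∂(mu (ENNReal.ofReal (RR p q)))) /
        energy T0 p (wt p q) (ph p q N) ≤ K := by
      refine le_trans (le_sInf fun C hC => ?_) h2
      exact ENNReal.div_le_of_le_mul (hC (ph p q N))
    rw [ENNReal.div_le_iff hne0 hnet, hen, hKk, ← ENNReal.ofReal_mul hk0] at h3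
    have h4 := (int_ge hp hq N).trans h3
    exact (ENNReal.ofReal_le_ofReal_iff (by positivity)).1 h4
  have h1 : RR p q = q ^ (-(p - 1)) := rfl
  rw [← h1]
  by_contra hcon
  push Not at hcon
  obtain ⟨N, hN'⟩ := exists_nat_gt (k / (1 - RR p q - k * B))
  have hd : 0 < 1 - RR p q - k * B := by linarith
  rw [div_lt_iff₀ hd] at hN'
  have h2 := hN N
  have h3 : 0 < 1 - RR p q := by
    have := RR_lt hp hq
    linarith
  nlinarith

/-- The main theorem: the best constant. -/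
theorem main {p : ℝ} (hp : 1 < p) :
    IsLeast (admissible p) (ENNReal.ofReal (p ^ p / (p - 1) ^ (p - 1))) :=
  ⟨upper hp, fun _ hK => lower hp hK⟩

end Pool.Agent.R884.TreeCap
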