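import Mathlib

set_option autoImplicit false

/-! Numerical inequalities. -/

namespace Pool.Agent.R884.TreeCap

open Real Finset

theorem young {p x r : ℝ} (hp : 1 < p) (hx : 0 ≤ x) (hr : 0 ≤ r) :
    p * r ^ (p - 1) * x ≤ x ^ p + (p - 1) * r ^ p := by
  have h0 : 0 < p := by linarith
  have h1 : 0 < p - 1 := by linarith
  have hpq : p.HolderConjugate (p / (p - 1)) := Real.HolderConjugate.conjExponent hp
  have h := Real.young_inequality_of_nonneg hx (rpow_nonneg hr (p - 1)) hpq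
  have h2 : (r ^ (p - 1)) ^ (p / (p - 1)) = r ^ p := by
    rw [← rpow_mul hr]
    congr 1
    field_simp
  rw [h2] at h
  have h3 : r ^ p / (p / (p - 1)) = r ^ p * (p - 1) / p := by
    field_simp
  rw [h3] at h
  have h4 := mul_le_mul_of_nonneg_left h h0.le
  have h5 : p * (x ^ p / p + r ^ p * (p - 1) / p) = x ^ p + (p - 1) * r ^ p := by
    field_simp
  rw [h5] at h4
  calc p * r ^ (p - 1) * x = p * (x * r ^ (p - 1)) := by ring
    _ ≤ _ := h4

theorem radon {p x y r : ℝ} (hp : 1 < p) (hx : 0 ≤ x) (hy : 0 < y) (hr : 0 ≤ r) :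
    p * r ^ (p - 1) * x - (p - 1) * r ^ p * y ≤ x ^ p * y ^ (1 - p) := by
  have h := young hp (div_nonneg hx hy.le) hr
  have h1 := mul_le_mul_of_nonneg_right h hy.le
  have h2 : (x / y) ^ p * y = x ^ p * y ^ (1 - p) := by
    rw [div_rpow hx hy.le, rpow_sub hy, rpow_one]
    field_simp
  have h3 : p * r ^ (p - 1) * (x / y) * y = p * r ^ (p - 1) * x := by
    field_simp
  rw [h3, add_mul, h2] at h1
  linarith

theorem radon' {p x y r : ℝ} (hp : 1 < p) (hx : 0 ≤ x) (hy : 0 ≤ y) (hr : 0 ≤ r)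
    (h : y = 0 → x = 0) :
    p * r ^ (p - 1) * x - (p - 1) * r ^ p * y ≤ x ^ p * y ^ (1 - p) := by
  rcases hy.eq_or_lt with h0 | h0
  · rw [← h0, h h0.symm]
    have : (0 : ℝ) ^ p = 0 := zero_rpow (by linarith)
    rw [this]
    simp
  · exact radon hp hx h0 hr

/-- two-point inequality -/
theorem two_point {p s t a y : ℝ} (hp : 1 < p) (hs : 0 ≤ s) (hst : s < t) (ha : 0 ≤ a)
    (hy : 0 < y) (h : a = 0 → s = 0) :
    ((p - 1) / p) ^ (p - 1) * (t ^ p - s ^ p / p) * (a + y) ^ (1 - p) ≤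
      (t - s) ^ p * y ^ (1 - p) + ((p - 1) / p) ^ p * (s ^ p * a ^ (1 - p)) := by
  have hp0 : 0 < p := by linarith
  have hp1 : 0 < p - 1 := by linarith
  have ht : 0 < t := hs.trans_lt hst
  obtain ⟨l, hl⟩ : ∃ l, l = (p - 1) / p := ⟨_, rfl⟩
  have hl0 : 0 < l := by rw [hl]; positivity
  have hlp : l * p = p - 1 := by rw [hl]; field_simp
  rw [← hl]
  have hb : 0 < a + y := by linarith
  have hts : 0 < t - s / p := by
    have : s / p ≤ s := div_le_self hs hp.le
    linarith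
  obtain ⟨r, hr⟩ : ∃ r, r = (t - s / p) / (a + y) := ⟨_, rfl⟩
  have hr0 : 0 < r := by rw [hr]; positivity
  have hrb : r * (a + y) = t - s / p := by rw [hr]; field_simp
  have h1 := radon hp (x := t - s) (by linarith) hy hr0.le
  have h2 := radon' hp (x := s) (r := r / l) hs ha (by positivity) h
  have hlp1 : l ^ p = l ^ (p - 1) * l := by
    rw [← rpow_add_one hl0.ne']; ring_nf
  have hrp1 : r ^ p = r ^ (p - 1) * r := by
    rw [← rpow_add_one hr0.ne']; ring_nf
  -- multiply h2 by l ^ p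
  have h3 := mul_le_mul_of_nonneg_left h2 (rpow_nonneg hl0.le p)
  have h4 : l ^ p * (p * (r / l) ^ (p - 1) * s - (p - 1) * (r / l) ^ p * a) =
      p * l * r ^ (p - 1) * s - (p - 1) * r ^ p * a := by
    rw [div_rpow hr0.le hl0.le, div_rpow hr0.le hl0.le]
    have e1 : l ^ p * (r ^ (p - 1) / l ^ (p - 1)) = l * r ^ (p - 1) := by
      rw [hlp1]
      have : l ^ (p - 1) ≠ 0 := (rpow_pos_of_pos hl0 _).ne'
      field_simp
    have e2 : l ^ p * (r ^ p / l ^ p) = r ^ p := by
      have : l ^ p ≠ 0 := (rpow_pos_of_pos hl0 _).ne'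
      field_simp
    calc _ = p * (l ^ p * (r ^ (p - 1) / l ^ (p - 1))) * s - (p - 1) * (l ^ p * (r ^ p / l ^ p)) * a := by
          ring
      _ = _ := by rw [e1, e2]; ring
  rw [h4] at h3
  -- the sum
  have h5 : r ^ p * (a + y) ≤ (t - s) ^ p * y ^ (1 - p) + l ^ p * (s ^ p * a ^ (1 - p)) := by
    have e : p * r ^ (p - 1) * (t - s) - (p - 1) * r ^ p * y +
        (p * l * r ^ (p - 1) * s - (p - 1) * r ^ p * a) = r ^ p * (a + y) := by
      have e1 : (t - s) + l * s = r * (a + y) := by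
        rw [hrb]
        have : s / p = s - l * s := by
          rw [hl]; field_simp; ring
        rw [this]; ring
      calc _ = p * r ^ (p - 1) * ((t - s) + l * s) - (p - 1) * r ^ p * (a + y) := by ring
        _ = p * (r ^ (p - 1) * r) * (a + y) - (p - 1) * r ^ p * (a + y) := by rw [e1]; ring
        _ = _ := by rw [← hrp1]; ring
    linarith
  -- the value
  have h6 : r ^ p * (a + y) = (t - s / p) ^ p * (a + y) ^ (1 - p) := by
    rw [hr, div_rpow hts.le hb.le, rpow_sub hb, rpow_one]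
    field_simp
  rw [h6] at h5
  refine le_trans ?_ h5
  refine mul_le_mul_of_nonneg_right ?_ (rpow_nonneg hb.le _)
  -- tangent lines
  have h7 := young hp hts.le (r := l * t) (by positivity)
  have h8 := young hp hs ht.le (x := s) (r := t)
  rw [mul_rpow hl0.le ht.le, mul_rpow hl0.le ht.le] at h7
  have htp1 : t ^ p = t ^ (p - 1) * t := by
    rw [← rpow_add_one ht.ne']; ring_nf
  have hL : 0 < l ^ (p - 1) := rpow_pos_of_pos hl0 _
  have h9 : t ^ p - s ^ p / p ≤ (1 + l) * t ^ p - t ^ (p - 1) * s := by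
    have : (p * t ^ (p - 1) * s) / p ≤ (s ^ p + (p - 1) * t ^ p) / p :=
      div_le_div_of_nonneg_right h8 hp0.le
    have e1 : (p * t ^ (p - 1) * s) / p = t ^ (p - 1) * s := by field_simp
    have e2 : (s ^ p + (p - 1) * t ^ p) / p = s ^ p / p + l * t ^ p := by
      rw [hl]; field_simp
    rw [e1, e2] at this
    linarith
  have h10 : l ^ (p - 1) * ((1 + l) * t ^ p - t ^ (p - 1) * s) ≤ (t - s / p) ^ p := by
    have e : p * (l ^ (p - 1) * t ^ (p - 1)) * (t - s / p) - (p - 1) * (l ^ p * t ^ p) =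
        l ^ (p - 1) * ((1 + l) * t ^ p - t ^ (p - 1) * s) := by
      have e1 : p * (t - s / p) = p * t - s := by field_simp
      have e2 : (p - 1) * l = p - 1 - l := by
        have : (p - 1) * l = l * p - l := by ring
        rw [this, hlp]
      calc _ = l ^ (p - 1) * t ^ (p - 1) * (p * (t - s / p)) - (p - 1) * (l ^ p * t ^ p) := by ring
        _ = l ^ (p - 1) * (p * (t ^ (p - 1) * t) - t ^ (p - 1) * s - ((p - 1) * l) * t ^ p) := by
          rw [e1, hlp1]; ring
        _ = _ := by rw [← htp1, e2]; ring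
    linarith
  exact (mul_le_mul_of_nonneg_left h9 hL.le).trans h10

/-- the constant -/
noncomputable def KK (p : ℝ) : ℝ := p ^ p / (p - 1) ^ (p - 1)

theorem KK_pos {p : ℝ} (hp : 1 < p) : 0 < KK p := by
  have h1 : 0 < p - 1 := by linarith
  have h0 : 0 < p := by linarith
  unfold KK
  positivity

theorem KK_eq {p : ℝ} (hp : 1 < p) : KK p * (((p - 1) / p) ^ (p - 1) / p) = 1 := by
  have h1 : 0 < p - 1 := by linarith
  have h0 : 0 < p := by linarith
  unfold KK
  rw [div_rpow h1.le h0.le]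
  have h2 : p ^ p = p ^ (p - 1) * p := by
    rw [← rpow_add_one h0.ne']; ring_nf
  rw [h2]
  have h3 : 0 < (p - 1) ^ (p - 1) := rpow_pos_of_pos h1 _
  have h4 : 0 < p ^ (p - 1) := rpow_pos_of_pos h0 _
  field_simp

/-- the discrete Bliss inequality -/
theorem bliss {p : ℝ} (hp : 1 < p) (y : ℕ → ℝ) (hy : ∀ i, 0 < y i) (m : ℕ) :
    ∑ j ∈ range m, (((j : ℝ) + 1) ^ p - (j : ℝ) ^ p) * (∑ i ∈ range (j + 1), y i) ^ (1 - p) ≤
      KK p * ∑ j ∈ range m, y j ^ (1 - p) := by
  have hp0 : 0 < p := by linarith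
  have hp1 : 0 < p - 1 := by linarith
  obtain ⟨l, hl⟩ : ∃ l, l = (p - 1) / p := ⟨_, rfl⟩
  have hl0 : 0 < l := by rw [hl]; positivity
  have hlp1 : l ^ p = l ^ (p - 1) * l := by
    rw [← rpow_add_one hl0.ne']; ring_nf
  have hl1 : l = 1 - 1 / p := by rw [hl]; field_simp
  have key : ∀ m : ℕ, l ^ (p - 1) / p *
      ∑ j ∈ range m, (((j : ℝ) + 1) ^ p - (j : ℝ) ^ p) * (∑ i ∈ range (j + 1), y i) ^ (1 - p) +
      l ^ p * ((m : ℝ) ^ p * (∑ i ∈ range m, y i) ^ (1 - p)) ≤ ∑ j ∈ range m, y j ^ (1 - p) := by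
    intro m
    induction m with
    | zero =>
      have : (0 : ℝ) ^ p = 0 := zero_rpow hp0.ne'
      simp [this]
    | succ m ih =>
      have h1 := two_point hp (s := m) (t := m + 1) (a := ∑ i ∈ range m, y i) (y := y m)
        (Nat.cast_nonneg m) (by linarith) (sum_nonneg fun i _ => (hy i).le) (hy m) (by
          intro h0
          by_contra hm
          have hm' : m ≠ 0 := by
            rintro rfl; simp at hm
          have : 0 < ∑ i ∈ range m, y i := sum_pos (fun i _ => hy i) ⟨0, by simp; omega⟩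
          linarith)
      rw [← hl] at h1
      have e0 : ((m : ℝ) + 1 - m) ^ p = 1 := by
        rw [show (m : ℝ) + 1 - m = 1 by ring, one_rpow]
      rw [e0, one_mul] at h1
      rw [sum_range_succ _ m, sum_range_succ (fun j => y j ^ (1 - p)) m]
      obtain ⟨a, ha⟩ : ∃ a, a = ∑ i ∈ range m, y i := ⟨_, rfl⟩
      have e1 : ∑ i ∈ range (m + 1), y i = a + y m := by rw [sum_range_succ, ha]
      rw [e1]
      rw [← ha] at h1 ih
      push_cast
      have e2 : l ^ (p - 1) / p * ((((m : ℝ) + 1) ^ p - (m : ℝ) ^ p) * (a + y m) ^ (1 - p)) +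
          l ^ p * (((m : ℝ) + 1) ^ p * (a + y m) ^ (1 - p)) =
          l ^ (p - 1) * (((m : ℝ) + 1) ^ p - (m : ℝ) ^ p / p) * (a + y m) ^ (1 - p) := by
        rw [hlp1]
        nth_rewrite 3 [hl1]
        field_simp
        ring
      rw [mul_add]
      linarith
  have h := key m
  have hnn : 0 ≤ l ^ p * ((m : ℝ) ^ p * (∑ i ∈ range m, y i) ^ (1 - p)) := by
    have : 0 ≤ ∑ i ∈ range m, y i := sum_nonneg fun i _ => (hy i).le
    positivity
  have h2 : l ^ (p - 1) / p *
      ∑ j ∈ range m, (((j : ℝ) + 1) ^ p - (j : ℝ) ^ p) * (∑ i ∈ range (j + 1), y i) ^ (1 - p) ≤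
      ∑ j ∈ range m, y j ^ (1 - p) := by linarith
  have h3 := mul_le_mul_of_nonneg_left h2 (KK_pos hp).le
  rw [← mul_assoc, hl, KK_eq hp, one_mul] at h3
  exact h3

end Pool.Agent.R884.TreeCap
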