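import Pool.Agent.R884.TreeCap.Defs
import Pool.Agent.R884.TreeCap.General

set_option autoImplicit false

/-! Successor sets are a laminar family; the upper bound. -/

noncomputable section

namespace Pool.Agent.R884.TreeCap

open MeasureTheory SimpleGraph
open scoped ENNReal NNReal

variable (T : RTree)

/-- the path from the pre-root -/
def PP (x : T.V) : T.G.Walk T.preRoot x := (T.isTree.existsUnique_path T.preRoot x).choose

variable {T}

theorem PP_path (x : T.V) : (PP T x).IsPath :=
  (T.isTree.existsUnique_path T.preRoot x).choose_spec.1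

theorem PP_unique {x : T.V} {w : T.G.Walk T.preRoot x} (hw : w.IsPath) : w = PP T x :=
  (T.isTree.existsUnique_path T.preRoot x).choose_spec.2 w hw

theorem mem_geo_inl {e : Edge T} {x : T.V} :
    e ∈ geo T (Sum.inl x) ↔ e.1 ∈ (PP T x).edges := by
  constructor
  · rintro ⟨w, hw, h⟩
    rwa [PP_unique hw] at h
  · intro h
    exact ⟨PP T x, PP_path x, h⟩

open Classical in
theorem takeUntil_eq {x b : T.V} (h : b ∈ (PP T x).support) : (PP T x).takeUntil b h = PP T b :=
  PP_unique ((PP_path x).takeUntil h)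

/-- ancestors -/
def Anc : Cl T → Set T.V
  | Sum.inl x => {v | v ∈ (PP T x).support}
  | Sum.inr ξ => Set.range ξ.1

theorem Anc_self (b : T.V) : b ∈ Anc (T := T) (Sum.inl b) := (PP T b).end_mem_support

theorem ray_path (ξ : Ray T) (m : ℕ) : ∀ v, v = ξ.1 m → ∃ w : T.G.Walk T.preRoot v, w.IsPath ∧
    (∀ u, u ∈ w.support ↔ ∃ k ≤ m, u = ξ.1 k) ∧
    ∀ e, e ∈ w.edges ↔ ∃ k < m, e = s(ξ.1 k, ξ.1 (k + 1)) := by
  induction m with
  | zero =>
    intro v hv
    rw [ξ.2.1] at hv
    subst hv
    refine ⟨Walk.nil, by simp, fun u => ?_, fun e => by simp⟩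
    simp [ξ.2.1]
  | succ m ih =>
    intro v hv
    obtain ⟨w, hw, hs, he⟩ := ih (ξ.1 m) rfl
    have hadj : T.G.Adj (ξ.1 m) v := by rw [hv]; exact ξ.2.2.1 m
    have hnot : v ∉ w.support := by
      intro h
      obtain ⟨k, hk, hk'⟩ := (hs v).1 h
      rw [hv] at hk'
      have := ξ.2.2.2 hk'
      omega
    refine ⟨w.concat hadj, hw.concat hnot hadj, fun u => ?_, fun e => ?_⟩
    · rw [Walk.support_concat, List.mem_append, hs, List.mem_singleton]
      constructor
      · rintro (⟨k, hk, hk'⟩ | h)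
        · exact ⟨k, by omega, hk'⟩
        · exact ⟨m + 1, le_rfl, by rw [h, hv]⟩
      · rintro ⟨k, hk, hk'⟩
        rcases Nat.lt_or_ge k (m + 1) with h | h
        · exact Or.inl ⟨k, by omega, hk'⟩
        · right
          have : k = m + 1 := by omega
          rw [hk', hv, this]
    · rw [Walk.edges_concat, List.concat_eq_append, List.mem_append, he, List.mem_singleton, hv]
      constructor
      · rintro (⟨k, hk, hk'⟩ | h)
        · exact ⟨k, by omega, hk'⟩
        · exact ⟨m, by omega, h⟩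
      · rintro ⟨k, hk, hk'⟩
        rcases Nat.lt_or_ge k m with h | h
        · exact Or.inl ⟨k, by omega, hk'⟩
        · right
          have : k = m := by omega
          rw [hk', this]

theorem ray_support (ξ : Ray T) (m : ℕ) (u : T.V) :
    u ∈ (PP T (ξ.1 m)).support ↔ ∃ k ≤ m, u = ξ.1 k := by
  obtain ⟨w, hw, hs, _⟩ := ray_path ξ m _ rfl
  rw [← PP_unique hw, hs]

theorem ray_edges (ξ : Ray T) (m : ℕ) (e : Sym2 T.V) :
    e ∈ (PP T (ξ.1 m)).edges ↔ ∃ k < m, e = s(ξ.1 k, ξ.1 (k + 1)) := by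
  obtain ⟨w, hw, _, he⟩ := ray_path ξ m _ rfl
  rw [← PP_unique hw, he]

theorem Anc_trans {c : T.V} {x : Cl T} (h : c ∈ Anc x) : Anc (T := T) (Sum.inl c) ⊆ Anc x := by
  classical
  intro b hb
  match x, h with
  | Sum.inl x, h =>
    have hb' : b ∈ (PP T c).support := hb
    rw [← takeUntil_eq h] at hb'
    exact Walk.support_takeUntil_subset_support _ _ hb'
  | Sum.inr ξ, h =>
    obtain ⟨m, rfl⟩ := h
    obtain ⟨k, _, rfl⟩ := (ray_support ξ m b).1 hb
    exact ⟨k, rfl⟩

theorem Anc_total {b c : T.V} {x : Cl T} (hb : b ∈ Anc x) (hc : c ∈ Anc x) :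
    b ∈ Anc (T := T) (Sum.inl c) ∨ c ∈ Anc (T := T) (Sum.inl b) := by
  classical
  match x, hb, hc with
  | Sum.inl x, hb, hc =>
    have h1 := Walk.support_takeUntil_prefix_support (PP T x) hb
    have h2 := Walk.support_takeUntil_prefix_support (PP T x) hc
    rw [takeUntil_eq hb] at h1
    rw [takeUntil_eq hc] at h2
    rcases List.prefix_or_prefix_of_prefix h1 h2 with h | h
    · exact Or.inl (h.subset (Anc_self b))
    · exact Or.inr (h.subset (Anc_self c))
  | Sum.inr ξ, hb, hc =>
    obtain ⟨i, rfl⟩ := hb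
    obtain ⟨j, rfl⟩ := hc
    rcases le_total i j with h | h
    · exact Or.inl ((ray_support ξ j _).2 ⟨i, h, rfl⟩)
    · exact Or.inr ((ray_support ξ i _).2 ⟨j, h, rfl⟩)

theorem Anc_antisymm {b c : T.V} (hb : b ∈ Anc (T := T) (Sum.inl c))
    (hc : c ∈ Anc (T := T) (Sum.inl b)) : b = c := by
  classical
  by_contra hne
  have h1 := Walk.length_takeUntil_lt_length (p := PP T c) hb hne
  have h2 := Walk.length_takeUntil_le_length (PP T b) hc
  rw [takeUntil_eq hb] at h1
  rw [takeUntil_eq hc] at h2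
  omega

theorem exists_far (e : Edge T) : ∃ b : T.V, (∀ x, e ∈ geo T x ↔ b ∈ Anc x) ∧
    e.1 = s((PP T b).penultimate, b) := by
  classical
  have main : ∀ a b : T.V, ∀ h : T.G.Adj a b, PP T b = (PP T a).concat h → e.1 = s(a, b) →
      (∀ x, e ∈ geo T x ↔ b ∈ Anc x) ∧ e.1 = s((PP T b).penultimate, b) := by
    intro a b h hP he
    refine ⟨fun x => ?_, by rw [hP, Walk.penultimate_concat, he]⟩
    match x with
    | Sum.inl x =>
      rw [mem_geo_inl, he]
      constructor
      · intro hmem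
        exact Walk.snd_mem_support_of_mem_edges _ hmem
      · intro hmem
        have h1 := Walk.edges_takeUntil_subset_edges (PP T x) hmem
        rw [takeUntil_eq hmem, hP, Walk.edges_concat] at h1
        exact h1 (by simp)
    | Sum.inr ξ =>
      constructor
      · rintro ⟨n, hn⟩
        rw [he, Sym2.eq_iff] at hn
        rcases hn with ⟨_, hn⟩ | ⟨_, hn⟩
        · exact ⟨n + 1, hn.symm⟩
        · exact ⟨n, hn.symm⟩
      · rintro ⟨m, hm⟩
        subst hm
        have h1 : s(a, ξ.1 m) ∈ (PP T (ξ.1 m)).edges := by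
          rw [hP, Walk.edges_concat]; simp
        obtain ⟨k, _, hk⟩ := (ray_edges ξ m _).1 h1
        exact ⟨k, by rw [he, hk]⟩
  obtain ⟨⟨a, b⟩, hab⟩ : ∃ q : T.V × T.V, e.1 = s(q.1, q.2) := by
    obtain ⟨q, hq⟩ := Quot.exists_rep e.1
    exact ⟨q, hq.symm⟩
  have hadj : T.G.Adj a b := by
    have := e.2
    rw [hab] at this
    exact this
  have hac := T.isTree.isAcyclic
  by_cases h : a ∈ (PP T b).support
  · have hP := hac.path_concat (PP_path a) (PP_path b) hadj h
    exact ⟨b, main a b hadj hP hab⟩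
  · have h2 := hac.mem_support_of_ne_mem_support_of_adj_of_isPath (PP_path a) (PP_path b) hadj h
    have hP := hac.path_concat (PP_path b) (PP_path a) hadj.symm h2
    exact ⟨a, main b a hadj.symm hP (by rw [hab]; exact Sym2.eq_swap)⟩

/-- the far end of an edge -/
def far (e : Edge T) : T.V := (exists_far e).choose

theorem mem_S {e : Edge T} {x : Cl T} : x ∈ S T e ↔ far e ∈ Anc x :=
  (exists_far e).choose_spec.1 x

theorem far_inj {e f : Edge T} (h : far e = far f) : e = f := by
  apply Subtype.ext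
  rw [(exists_far e).choose_spec.2, (exists_far f).choose_spec.2]
  change s((PP T (far e)).penultimate, far e) = s((PP T (far f)).penultimate, far f)
  rw [h]

theorem S_inj : Function.Injective (S T) := by
  intro e f h
  have h1 : (Sum.inl (far e) : Cl T) ∈ S T f := by rw [← h]; exact mem_S.2 (Anc_self _)
  have h2 : (Sum.inl (far f) : Cl T) ∈ S T e := by rw [h]; exact mem_S.2 (Anc_self _)
  exact far_inj (Anc_antisymm (mem_S.1 h2) (mem_S.1 h1))

theorem S_laminar (e f : Edge T) (x : Cl T) (he : x ∈ S T e) (hf : x ∈ S T f) :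
    S T e ⊆ S T f ∨ S T f ⊆ S T e := by
  rcases Anc_total (mem_S.1 he) (mem_S.1 hf) with h | h
  · right
    intro y hy
    exact mem_S.2 (Anc_trans (mem_S.1 hy) h)
  · left
    intro y hy
    exact mem_S.2 (Anc_trans (mem_S.1 hy) h)

theorem S_meas (e : Edge T) : MeasurableSet (S T e) := by
  have : @MeasurableSet _ (borel (Cl T)) (S T e) := by
    refine MeasurableSpace.measurableSet_generateFrom ?_
    exact TopologicalSpace.isOpen_generateFrom_of_mem (Or.inl ⟨e, rfl⟩)
  exact this

instance : Countable (Edge T) := by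
  have := T.countable
  have h : Countable (Sym2 T.V) := inferInstanceAs (Countable (Quot _))
  exact inferInstanceAs (Countable ↥T.G.edgeSet)

theorem energy_fin (p : ℝ) (hp : 0 < p) (π θ : Edge T → ℝ≥0) (F : Finset (Edge T)) :
    open Classical in
    energy T p π (fun e => if e ∈ F then θ e else 0) = ∑ e ∈ F, (θ e : ℝ≥0∞) ^ p * π e := by
  classical
  unfold energy
  rw [tsum_eq_sum (s := F)]
  · refine Finset.sum_congr rfl fun e he => ?_
    beta_reduce
    rw [if_pos he]
  · intro e he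
    beta_reduce
    rw [if_neg he, ENNReal.coe_zero, ENNReal.zero_rpow_of_pos hp, zero_mul]

theorem iso_of_isoConst {p : ℝ} (hp : 1 < p) (π : Edge T → ℝ≥0) (μ : Measure (Cl T))
    (hκ : isoConst T p π μ ≠ ∞) : Iso μ (S T) p π (isoConst T p π μ) := by
  classical
  have hp0 : 0 < p := by linarith
  intro A F θ hdisj hadm
  rcases A.eq_empty_or_nonempty with h | h
  · subst h; simp
  have h1 : (∑ e ∈ A, μ (S T e)) / cap T p π (⋃ e ∈ A, S T e) ≤ isoConst T p π μ :=
    le_sSup ⟨A, h, hdisj, rfl⟩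
  have h2 : cap T p π (⋃ e ∈ A, S T e) ≤ ∑ e ∈ F, (θ e : ℝ≥0∞) ^ p * π e := by
    refine sInf_le ⟨fun e => if e ∈ F then θ e else 0, fun x hx => ?_,
      (energy_fin p hp0 π θ F).symm⟩
    simp only [Set.mem_iUnion, exists_prop] at hx
    obtain ⟨e, he, hxe⟩ := hx
    refine (hadm e he x hxe).trans ?_
    unfold hardyOp
    rw [tsum_eq_sum (s := F)]
    · refine le_of_eq (Finset.sum_congr rfl fun f hf => ?_)
      beta_reduce
      rw [if_pos hf]
      rfl
    · intro f hf
      beta_reduce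
      rw [if_neg hf]
      simp
  have h3 : ∑ e ∈ F, (θ e : ℝ≥0∞) ^ p * π e ≠ ∞ := by
    refine (ENNReal.sum_lt_top.2 fun e _ => ?_).ne
    exact ENNReal.mul_lt_top (ENNReal.rpow_lt_top_of_nonneg hp0.le ENNReal.coe_ne_top)
      ENNReal.coe_lt_top
  rw [ENNReal.div_le_iff_le_mul (Or.inr hκ) (Or.inl (ne_top_of_le_ne_top h3 h2))] at h1
  exact h1.trans (mul_le_mul_right h2 _)

theorem upper {p : ℝ} (hp : 1 < p) : ENNReal.ofReal (KK p) ∈ admissible p := by
  classical
  intro T π μ
  by_cases hκ : isoConst T p π μ = ∞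
  · rw [hκ, ENNReal.mul_top]
    · exact le_top
    · rw [Ne, ENNReal.ofReal_eq_zero, not_le]
      exact KK_pos hp
  · refine sInf_le fun φ => ?_
    have h := general μ S_meas S_inj S_laminar π φ hp hκ (iso_of_isoConst hp π μ hκ)
    refine le_trans (le_of_eq ?_) (h.trans (le_of_eq ?_))
    · rfl
    · rw [mul_comm (ENNReal.ofReal (KK p)) (isoConst T p π μ), mul_assoc]
      rfl

end Pool.Agent.R884.TreeCap
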